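import Pool.Agent.Helper89_ABA.Pln7

/-! # Statement of the module E6K0 (MP_d857f1_al, part B, section 11)

E6 for two planes with a common vertex. -/

namespace Pool.Agent.ABA.B.H88

open Knd Pool.Agent.ABA Pool.Agent.ABA.B Pool.Agent.ABA.B.TG Pool.Agent.ABA.B.H17
  Pool.Agent.ABA.B.H89

/-- E6 for the planes of `1` and `h` if they have a common vertex. -/
def E6K0Stmt : Prop :=
  ∀ {G : Type} [Group G] {A B : Subgroup G} {g : G} (hg : ¬ IsABA A B g) (hgeo : Geo A B)
    (hι : Function.Injective (Pι A B g)) (_ : ∀ x ∈ A, ∀ y ∈ A, x * y = y * x) (_ : Mods)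
    (_ : (XX hg hgeo hι).SC) (h : PP A B g), ¬ IsABA (PA A B g) (PB A B g) h →
    (∃ v : XV A B g, On (plane 1) v ∧ On (plane h) v) → E6 (PA A B g) h

end Pool.Agent.ABA.B.H88
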