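import Pool.Agent.Helper88_ABA.Exc
import Pool.Agent.Helper88_ABA.E6K0Defs

/-! # E6 for two planes with a common vertex (MP_d857f1_al, part B, module E6K0) -/

namespace Pool.Agent.ABA.B.H88

open Knd Pool.Agent.ABA Pool.Agent.ABA.B Pool.Agent.ABA.B.TG Pool.Agent.ABA.B.H17
  Pool.Agent.ABA.B.H89

variable {G : Type} [Group G] {A B : Subgroup G} {g : G}
variable {hg : ¬ IsABA A B g} {hgeo : Geo A B} {hι : Function.Injective (Pι A B g)}

theorem Dw_congr {u u' : ℕ → PP A B g} {δ δ' : ℕ → G} {N : ℕ} (hu : ∀ k < N, u k = u' k)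
    (hδ : ∀ k < N, δ k = δ' k) : Dw u δ N = Dw u' δ' N := by
  induction N with
  | zero => rfl
  | succ N ih =>
    rw [Dw, Dw, ih (fun k hk => hu k (by omega)) (fun k hk => hδ k (by omega)), hu N (by omega),
      hδ N (by omega)]

theorem mkWd {N : ℕ} (hN : 0 < N) {u : ℕ → PP A B g} {δ : ℕ → G}
    (hmem : ∀ k < N, u k ∈ PA A B g) (htr : ∀ k < N, ∀ x, u k ≠ Pι A B g x)
    (hrel : Dw u δ N = 1) : Wd6 N (fun k => u (k % N)) (fun k => δ (k % N)) where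
  perw k := by simp
  perg k := by simp
  mem k := hmem _ (Nat.mod_lt _ hN)
  trn k := htr _ (Nat.mod_lt _ hN)
  rel := by
    rw [← hrel]
    exact Dw_congr (fun k hk => by simp [Nat.mod_eq_of_lt hk])
      (fun k hk => by simp [Nat.mod_eq_of_lt hk])

theorem cnt_word (hA : ∀ x ∈ A, ∀ y ∈ A, x * y = y * x) (M : Mods) (hSC : (XX hg hgeo hι).SC)
    {N : ℕ} (hN : 4 ≤ N) (hN6 : N ≤ 6) {u : ℕ → PP A B g} {δ : ℕ → G}
    (hmem : ∀ k < N, u k ∈ PA A B g) (htr : ∀ k < N, ∀ x, u k ≠ Pι A B g x)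
    (hrel : Dw u δ N = 1) (hδ : ∀ k < N, δ k ∉ A) (ht : N = 6 → ∀ k < N, ¬ IsABA A B (δ k))
    (ρ : ℕ → ℝ) (hρ : ∀ k < N, (¬ IsABA A B (δ k) ∧ ρ k = 0.9) ∨ ρ k = 2.1) :
    6 ≤ ∑ k ∈ Finset.range N, ρ k := by
  have hN0 : 0 < N := by omega
  refine (mkWd hN0 hmem htr hrel).count hA M hSC (fun k => hδ _ (Nat.mod_lt _ hN0)) hN hN6
    (fun h6 k => ht h6 _ (Nat.mod_lt _ hN0)) ρ ?_
  intro k hk
  simp only [Nat.mod_eq_of_lt hk]
  exact hρ k hk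

/-- no closed word with two translations -/
theorem two_word (hA : ∀ x ∈ A, ∀ y ∈ A, x * y = y * x) (M : Mods)
    (hSC : (XX hg hgeo hι).SC) {u0 u1 : PP A B g} {δ0 δ1 : G} (m0 : u0 ∈ PA A B g)
    (m1 : u1 ∈ PA A B g) (t0 : ∀ x, u0 ≠ Pι A B g x) (hδ : δ0 ∉ A)
    (hrel : u0 * Pι A B g δ0 * u1 * Pι A B g δ1 = 1) : False := by
  have p0 : (plane 1 : Car A B g) = plane u0 := by rw [plane_eq, inv_one, one_mul]; exact m0
  have p1 : (plane (u0 * Pι A B g δ0) : Car A B g) = plane (u0 * Pι A B g δ0 * u1) := by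
    rw [plane_eq, inv_mul_cancel_left]; exact m1
  have v0 : (vx (u0 * Pι A B g δ0 * u1) : XV A B g) = vx 1 := vx_eq.2 ⟨δ1, hrel.symm⟩
  have hne : (plane 1 : Car A B g) ≠ plane (u0 * Pι A B g δ0) := by
    rw [p0]
    intro h
    rw [plane_eq, inv_mul_cancel_left] at h
    exact hδ ((ι_PA hι).1 h)
  have h1 := two_gon hA M hSC hne (x := vx 1) (y := vx u0) ⟨1, rfl, Or.inl rfl⟩
    ⟨u0, rfl, Or.inl p0⟩ ⟨_, v0.symm, Or.inl p1⟩
    ⟨u0 * Pι A B g δ0, vx_eq.2 ⟨δ0, rfl⟩, Or.inl rfl⟩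
  obtain ⟨x, hx⟩ := vx_eq.1 h1
  exact t0 x (by rw [hx, one_mul])

/-- no closed word with three translations -/
theorem three_word (hA : ∀ x ∈ A, ∀ y ∈ A, x * y = y * x) (M : Mods)
    (hSC : (XX hg hgeo hι).SC) {u0 u1 u2 : PP A B g} {δ0 δ1 δ2 : G} (m0 : u0 ∈ PA A B g)
    (m1 : u1 ∈ PA A B g) (m2 : u2 ∈ PA A B g) (t1 : ∀ x, u1 ≠ Pι A B g x) (hδ0 : δ0 ∉ A)
    (hδ1 : δ1 ∉ A)
    (hrel : u0 * Pι A B g δ0 * u1 * Pι A B g δ1 * u2 * Pι A B g δ2 = 1) : False := by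
  have p0 : (plane 1 : Car A B g) = plane u0 := by rw [plane_eq, inv_one, one_mul]; exact m0
  have p1 : (plane (u0 * Pι A B g δ0) : Car A B g) = plane (u0 * Pι A B g δ0 * u1) := by
    rw [plane_eq, inv_mul_cancel_left]; exact m1
  have p2 : (plane (u0 * Pι A B g δ0 * u1 * Pι A B g δ1) : Car A B g) =
      plane (u0 * Pι A B g δ0 * u1 * Pι A B g δ1 * u2) := by
    rw [plane_eq, inv_mul_cancel_left]; exact m2
  have v0 : (vx (u0 * Pι A B g δ0 * u1 * Pι A B g δ1 * u2) : XV A B g) = vx 1 :=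
    vx_eq.2 ⟨δ2, hrel.symm⟩
  have e1 : (vx (u0 * Pι A B g δ0) : XV A B g) = vx u0 := (vx_eq.2 ⟨δ0, rfl⟩).symm
  have e2 : (vx (u0 * Pι A B g δ0 * u1 * Pι A B g δ1) : XV A B g) =
      vx (u0 * Pι A B g δ0 * u1) := (vx_eq.2 ⟨δ1, rfl⟩).symm
  have n01 : (plane 1 : Car A B g) ≠ plane (u0 * Pι A B g δ0) := by
    rw [p0]
    intro h
    rw [plane_eq, inv_mul_cancel_left] at h
    exact hδ0 ((ι_PA hι).1 h)
  have n12 : (plane (u0 * Pι A B g δ0) : Car A B g) ≠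
      plane (u0 * Pι A B g δ0 * u1 * Pι A B g δ1) := by
    rw [p1]
    intro h
    rw [plane_eq, inv_mul_cancel_left] at h
    exact hδ1 ((ι_PA hι).1 h)
  have o00 : On (plane 1 : Car A B g) (vx u0) := ⟨u0, rfl, Or.inl p0⟩
  have o10 : On (plane (u0 * Pι A B g δ0) : Car A B g) (vx u0) := ⟨_, e1.symm, Or.inl rfl⟩
  have o11 : On (plane (u0 * Pι A B g δ0) : Car A B g) (vx (u0 * Pι A B g δ0 * u1)) :=
    ⟨_, rfl, Or.inl p1⟩
  have o21 : On (plane (u0 * Pι A B g δ0 * u1 * Pι A B g δ1) : Car A B g)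
      (vx (u0 * Pι A B g δ0 * u1)) := ⟨_, e2.symm, Or.inl rfl⟩
  have o22 : On (plane (u0 * Pι A B g δ0 * u1 * Pι A B g δ1) : Car A B g) (vx 1) :=
    ⟨_, v0.symm, Or.inl p2⟩
  have o02 : On (plane 1 : Car A B g) (vx 1) := ⟨1, rfl, Or.inl rfl⟩
  have d01 : (vx u0 : XV A B g) ≠ vx (u0 * Pι A B g δ0 * u1) := by
    rw [← e1]
    intro h
    obtain ⟨x, hx⟩ := vx_eq.1 h
    exact t1 x (mul_left_cancel hx)
  by_cases hc : (plane 1 : Car A B g) = plane (u0 * Pι A B g δ0 * u1 * Pι A B g δ1)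
  · rw [← hc] at o21
    exact d01 (two_gon hA M hSC n01 o00 o21 o10 o11)
  · have d12 : (vx (u0 * Pι A B g δ0 * u1) : XV A B g) ≠ vx 1 := by
      intro h
      rw [← h] at o02
      exact d01 (two_gon hA M hSC n01 o00 o02 o10 o11)
    have d20 : (vx 1 : XV A B g) ≠ vx u0 := by
      intro h
      rw [h] at o22
      exact d01 (two_gon hA M hSC n12 o10 o11 o22 o21)
    obtain ⟨s0, s1, s2, n0, n1, n2, a, W, I, hG⟩ := gon3 hA M hSC n01 n12 (Ne.symm hc) o00 o10 o11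
      o21 o22 o02 d01 d12 d20
    exact no_PPP hA hG

/-! ## the relation -/

/-- the relation of E6 -/
def R6 (ξ : G) (w : ℕ → PP A B g) : Prop :=
  (∀ k, w (k + 6) = w k) ∧ (∀ k, w k ∈ PA A B g ∧ w k ≠ 1) ∧
  w 0 * Pι A B g ξ * w 1 * (Pι A B g ξ)⁻¹ * w 2 * Pι A B g ξ * w 3 * (Pι A B g ξ)⁻¹ *
    w 4 * Pι A B g ξ * w 5 * (Pι A B g ξ)⁻¹ = 1

theorem R6.rot {ξ : G} {w : ℕ → PP A B g} (h : R6 ξ w) : R6 ξ⁻¹ (fun k => w (k + 1)) := by
  obtain ⟨h1, h2, h3⟩ := h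
  refine ⟨fun k => ?_, fun k => h2 _, ?_⟩
  · have h5 := h1 (k + 1)
    show w (k + 6 + 1) = w (k + 1)
    rw [← h5]
  · have h4 : w 6 = w 0 := h1 0
    simp only [Nat.zero_add, Nat.reduceAdd, h4, map_inv, _root_.inv_inv]
    have h5 : w 0 * (Pι A B g ξ * w 1 * (Pι A B g ξ)⁻¹ * w 2 * Pι A B g ξ * w 3 *
      (Pι A B g ξ)⁻¹ * w 4 * Pι A B g ξ * w 5 * (Pι A B g ξ)⁻¹) = 1 := by
      rw [← h3]; simp only [mul_assoc]
    have h6 := mul_eq_one_iff_eq_inv.1 h5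
    have h7 : (Pι A B g ξ)⁻¹ * ((Pι A B g ξ * w 1 * (Pι A B g ξ)⁻¹ * w 2 * Pι A B g ξ * w 3 *
      (Pι A B g ξ)⁻¹ * w 4 * Pι A B g ξ * w 5 * (Pι A B g ξ)⁻¹) * w 0) * Pι A B g ξ = 1 := by
      rw [h6, mul_inv_cancel]; group
    rw [← h7]
    group

theorem IsABA.inv' {ξ : G} (h : IsABA A B ξ) : IsABA A B ξ⁻¹ := by
  obtain ⟨x, hx, y, hy, z, hz, rfl⟩ := h
  exact ⟨z⁻¹, A.inv_mem hz, y⁻¹, B.inv_mem hy, x⁻¹, A.inv_mem hx, by group⟩

theorem not_aba_inv {ξ : G} (h : ¬ IsABA A B ξ) : ¬ IsABA A B ξ⁻¹ := fun h' =>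
  h (by simpa using IsABA.inv' h')

theorem R6.rotn {ξ : G} {w : ℕ → PP A B g} (h : R6 ξ w) (hξ : ¬ IsABA A B ξ) (n : ℕ) :
    ∃ ξ', ¬ IsABA A B ξ' ∧ R6 ξ' (fun k => w (k + n)) := by
  induction n with
  | zero => exact ⟨ξ, hξ, h⟩
  | succ n ih =>
    obtain ⟨ξ', h1, h2⟩ := ih
    refine ⟨ξ'⁻¹, not_aba_inv h1, ?_⟩
    have h3 := h2.rot
    have h4 : (fun k => w (k + (n + 1))) = (fun k => w (k + 1 + n)) := by
      funext k; congr 1; omega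
    rw [h4]
    exact h3

/-- the patterns of translations up to rotation -/
def canon : List (List Bool) :=
  [[false, false, false, false, false, false],
   [true, false, false, false, false, false],
   [true, true, false, false, false, false],
   [true, false, true, false, false, false],
   [true, false, false, true, false, false],
   [true, true, true, false, false, false],
   [true, true, false, true, false, false],
   [true, false, true, true, false, false],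
   [true, false, true, false, true, false],
   [true, true, true, true, false, false],
   [true, true, true, false, true, false],
   [true, true, false, true, true, false],
   [true, true, true, true, true, false],
   [true, true, true, true, true, true]]

theorem canon_all : ∀ b0 b1 b2 b3 b4 b5 : Bool,
    [b0, b1, b2, b3, b4, b5] ∈ canon ∨ [b1, b2, b3, b4, b5, b0] ∈ canon ∨
    [b2, b3, b4, b5, b0, b1] ∈ canon ∨ [b3, b4, b5, b0, b1, b2] ∈ canon ∨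
    [b4, b5, b0, b1, b2, b3] ∈ canon ∨ [b5, b0, b1, b2, b3, b4] ∈ canon := by
  decide

theorem rotE (hι : Function.Injective (Pι A B g)) {x : PP A B g} (hx : x ∈ PA A B g ∧ x ≠ 1)
    (h : ¬ ∀ y, x ≠ Pι A B g y) : ∃ a ∈ A, a ≠ 1 ∧ x = Pι A B g a := by
  rw [not_forall] at h
  obtain ⟨a, ha⟩ := h
  rw [not_not] at ha
  subst ha
  refine ⟨a, (ι_PA hι).1 hx.1, ?_, rfl⟩
  rintro rfl
  exact hx.2 (map_one _)

open Classical in
theorem canon_case (hA : ∀ x ∈ A, ∀ y ∈ A, x * y = y * x) (M : Mods)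
    (hSC : (XX hg hgeo hι).SC) {ξ : G} (hξ : ¬ IsABA A B ξ) {w : ℕ → PP A B g} (h : R6 ξ w)
    (hc : [decide (∀ y, w 0 ≠ Pι A B g y), decide (∀ y, w 1 ≠ Pι A B g y),
      decide (∀ y, w 2 ≠ Pι A B g y), decide (∀ y, w 3 ≠ Pι A B g y),
      decide (∀ y, w 4 ≠ Pι A B g y), decide (∀ y, w 5 ≠ Pι A B g y)] ∈ canon) : False := by
  obtain ⟨-, hm, hr⟩ := h
  have nξ : ξ ∉ A := not_A_of hξ
  have nξ' : ξ⁻¹ ∉ A := fun h => nξ (by simpa using A.inv_mem h)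
  have hξ' : ¬ IsABA A B ξ⁻¹ := not_aba_inv hξ
  have mm : ∀ k, w k ∈ PA A B g := fun k => (hm k).1
  have cj : ∀ {a : G}, a ∈ A → a ≠ 1 → ξ * a * ξ⁻¹ ∉ A := fun ha h1 => conj_notA (hgeo := hgeo) nξ ha h1
  have cj' : ∀ {a : G}, a ∈ A → a ≠ 1 → ξ⁻¹ * a * ξ ∉ A := fun ha h1 => by
    have := conj_notA (hgeo := hgeo) nξ' ha h1
    rwa [_root_.inv_inv] at this
  have tr : ∀ {a a' : G}, a ∈ A → a ≠ 1 → a' ∈ A → a' ≠ 1 → ξ * a * ξ⁻¹ * a' * ξ ∉ A :=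
    fun ha h1 ha' h1' => trip_notA (hgeo := hgeo) hA nξ ha h1 ha' h1'
  have tr' : ∀ {a a' : G}, a ∈ A → a ≠ 1 → a' ∈ A → a' ≠ 1 → ξ⁻¹ * a * ξ * a' * ξ⁻¹ ∉ A :=
    fun ha h1 ha' h1' => by
      have := trip_notA (hgeo := hgeo) hA nξ' ha h1 ha' h1'
      rwa [_root_.inv_inv] at this
  simp only [canon, List.mem_cons, List.cons.injEq, decide_eq_true_eq,
    decide_eq_false_iff_not, and_true, List.not_mem_nil, or_false] at hc
  rcases hc with ⟨c0, c1, c2, c3, c4, c5⟩ | ⟨c0, c1, c2, c3, c4, c5⟩ | ⟨c0, c1, c2, c3, c4, c5⟩ |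
    ⟨c0, c1, c2, c3, c4, c5⟩ | ⟨c0, c1, c2, c3, c4, c5⟩ | ⟨c0, c1, c2, c3, c4, c5⟩ |
    ⟨c0, c1, c2, c3, c4, c5⟩ | ⟨c0, c1, c2, c3, c4, c5⟩ | ⟨c0, c1, c2, c3, c4, c5⟩ |
    ⟨c0, c1, c2, c3, c4, c5⟩ | ⟨c0, c1, c2, c3, c4, c5⟩ | ⟨c0, c1, c2, c3, c4, c5⟩ |
    ⟨c0, c1, c2, c3, c4, c5⟩ | ⟨c0, c1, c2, c3, c4, c5⟩
  · -- FFFFFF
    obtain ⟨a0, z0, n0, e0⟩ := rotE hι (hm 0) c0
    obtain ⟨a1, z1, n1, e1⟩ := rotE hι (hm 1) c1
    obtain ⟨a2, z2, n2, e2⟩ := rotE hι (hm 2) c2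
    obtain ⟨a3, z3, n3, e3⟩ := rotE hι (hm 3) c3
    obtain ⟨a4, z4, n4, e4⟩ := rotE hι (hm 4) c4
    obtain ⟨a5, z5, n5, e5⟩ := rotE hι (hm 5) c5
    refine hgeo.e6 ξ hξ a0 z0 a1 z1 a2 z2 a3 z3 a4 z4 a5 z5 n0 n1 n2 n3 n4 n5 ?_
    apply hι
    rw [e0, e1, e2, e3, e4, e5] at hr
    simp only [map_mul, map_inv, map_one, mul_assoc] at hr ⊢
    exact hr
  · -- TFFFFF
    obtain ⟨a1, z1, n1, e1⟩ := rotE hι (hm 1) c1
    obtain ⟨a2, z2, n2, e2⟩ := rotE hι (hm 2) c2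
    obtain ⟨a3, z3, n3, e3⟩ := rotE hι (hm 3) c3
    obtain ⟨a4, z4, n4, e4⟩ := rotE hι (hm 4) c4
    obtain ⟨a5, z5, n5, e5⟩ := rotE hι (hm 5) c5
    rw [e1, e2, e3, e4, e5] at hr
    apply c0 (ξ * a1 * ξ⁻¹ * a2 * ξ * a3 * ξ⁻¹ * a4 * ξ * a5 * ξ⁻¹)⁻¹
    rw [map_inv, ← mul_eq_one_iff_eq_inv]
    simp only [map_mul, map_inv, mul_assoc] at hr ⊢
    exact hr
  · -- TTFFFF
    obtain ⟨a2, z2, n2, e2⟩ := rotE hι (hm 2) c2
    obtain ⟨a3, z3, n3, e3⟩ := rotE hι (hm 3) c3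
    obtain ⟨a4, z4, n4, e4⟩ := rotE hι (hm 4) c4
    obtain ⟨a5, z5, n5, e5⟩ := rotE hι (hm 5) c5
    rw [e2, e3, e4, e5] at hr
    refine two_word hA M hSC (mm 0) (mm 1) c0 nξ
      (δ1 := ξ⁻¹ * a2 * ξ * a3 * ξ⁻¹ * a4 * ξ * a5 * ξ⁻¹) ?_
    simp only [map_mul, map_inv, mul_assoc] at hr ⊢
    exact hr
  · -- TFTFFF
    obtain ⟨a1, z1, n1, e1⟩ := rotE hι (hm 1) c1
    obtain ⟨a3, z3, n3, e3⟩ := rotE hι (hm 3) c3
    obtain ⟨a4, z4, n4, e4⟩ := rotE hι (hm 4) c4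
    obtain ⟨a5, z5, n5, e5⟩ := rotE hι (hm 5) c5
    rw [e1, e3, e4, e5] at hr
    refine two_word hA M hSC (mm 0) (mm 2) c0 (cj z1 n1)
      (δ1 := ξ * a3 * ξ⁻¹ * a4 * ξ * a5 * ξ⁻¹) ?_
    simp only [map_mul, map_inv, mul_assoc] at hr ⊢
    exact hr
  · -- TFFTFF
    obtain ⟨a1, z1, n1, e1⟩ := rotE hι (hm 1) c1
    obtain ⟨a2, z2, n2, e2⟩ := rotE hι (hm 2) c2
    obtain ⟨a4, z4, n4, e4⟩ := rotE hι (hm 4) c4
    obtain ⟨a5, z5, n5, e5⟩ := rotE hι (hm 5) c5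
    rw [e1, e2, e4, e5] at hr
    refine two_word hA M hSC (mm 0) (mm 3) c0 (tr z1 n1 z2 n2)
      (δ1 := ξ⁻¹ * a4 * ξ * a5 * ξ⁻¹) ?_
    simp only [map_mul, map_inv, mul_assoc] at hr ⊢
    exact hr
  · -- TTTFFF
    obtain ⟨a3, z3, n3, e3⟩ := rotE hι (hm 3) c3
    obtain ⟨a4, z4, n4, e4⟩ := rotE hι (hm 4) c4
    obtain ⟨a5, z5, n5, e5⟩ := rotE hι (hm 5) c5
    rw [e3, e4, e5] at hr
    refine three_word hA M hSC (mm 0) (mm 1) (mm 2) c1 nξ nξ'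
      (δ2 := ξ * a3 * ξ⁻¹ * a4 * ξ * a5 * ξ⁻¹) ?_
    simp only [map_mul, map_inv, mul_assoc] at hr ⊢
    exact hr
  · -- TTFTFF
    obtain ⟨a2, z2, n2, e2⟩ := rotE hι (hm 2) c2
    obtain ⟨a4, z4, n4, e4⟩ := rotE hι (hm 4) c4
    obtain ⟨a5, z5, n5, e5⟩ := rotE hι (hm 5) c5
    rw [e2, e4, e5] at hr
    refine three_word hA M hSC (mm 0) (mm 1) (mm 3) c1 nξ (cj' z2 n2)
      (δ2 := ξ⁻¹ * a4 * ξ * a5 * ξ⁻¹) ?_
    simp only [map_mul, map_inv, mul_assoc] at hr ⊢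
    exact hr
  · -- TFTTFF
    obtain ⟨a1, z1, n1, e1⟩ := rotE hι (hm 1) c1
    obtain ⟨a4, z4, n4, e4⟩ := rotE hι (hm 4) c4
    obtain ⟨a5, z5, n5, e5⟩ := rotE hι (hm 5) c5
    rw [e1, e4, e5] at hr
    refine three_word hA M hSC (mm 0) (mm 2) (mm 3) c2 (cj z1 n1) nξ
      (δ2 := ξ⁻¹ * a4 * ξ * a5 * ξ⁻¹) ?_
    simp only [map_mul, map_inv, mul_assoc] at hr ⊢
    exact hr
  · -- TFTFTF
    obtain ⟨a1, z1, n1, e1⟩ := rotE hι (hm 1) c1
    obtain ⟨a3, z3, n3, e3⟩ := rotE hι (hm 3) c3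
    obtain ⟨a5, z5, n5, e5⟩ := rotE hι (hm 5) c5
    rw [e1, e3, e5] at hr
    refine three_word hA M hSC (mm 0) (mm 2) (mm 4) c2 (cj z1 n1) (cj z3 n3)
      (δ2 := ξ * a5 * ξ⁻¹) ?_
    simp only [map_mul, map_inv, mul_assoc] at hr ⊢
    exact hr
  · -- TTTTFF
    obtain ⟨a4, z4, n4, e4⟩ := rotE hι (hm 4) c4
    obtain ⟨a5, z5, n5, e5⟩ := rotE hι (hm 5) c5
    rw [e4, e5] at hr
    have := cnt_word (N := 4) hA M hSC (by omega) (by omega) (u := w)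
      (δ := fun k => [ξ, ξ⁻¹, ξ, ξ⁻¹ * a4 * ξ * a5 * ξ⁻¹].getD k 1)
      (fun k _ => mm k) (by intro k hk; interval_cases k <;> assumption) (by
        simp only [Dw, List.getD_cons_zero, List.getD_cons_succ, map_mul, map_inv, mul_assoc,
          one_mul] at hr ⊢
        exact hr)
      (by
        intro k hk
        interval_cases k
        · exact nξ
        · exact nξ'
        · exact nξ
        · exact tr' z4 n4 z5 n5) (by omega) (fun k => [0.9, 0.9, 0.9, 2.1].getD k 0) (by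
        intro k hk
        interval_cases k
        · exact Or.inl ⟨hξ, rfl⟩
        · exact Or.inl ⟨hξ', rfl⟩
        · exact Or.inl ⟨hξ, rfl⟩
        · exact Or.inr rfl)
    simp only [Finset.sum_range_succ, Finset.range_zero, Finset.sum_empty,
      List.getD_cons_zero, List.getD_cons_succ] at this
    norm_num at this
  · -- TTTFTF
    obtain ⟨a3, z3, n3, e3⟩ := rotE hι (hm 3) c3
    obtain ⟨a5, z5, n5, e5⟩ := rotE hι (hm 5) c5
    rw [e3, e5] at hr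
    have hW := mkWd (N := 4) (by omega) (u := fun k => [w 0, w 1, w 2, w 4].getD k 1)
      (δ := fun k => [ξ, ξ⁻¹, ξ * a3 * ξ⁻¹, ξ * a5 * ξ⁻¹].getD k 1)
      (by intro k hk; interval_cases k <;> exact mm _)
      (by intro k hk; interval_cases k <;> assumption) (by
        simp only [Dw, List.getD_cons_zero, List.getD_cons_succ, map_mul, map_inv, mul_assoc,
          one_mul] at hr ⊢
        exact hr)
    have hδ : ∀ k < 4, [ξ, ξ⁻¹, ξ * a3 * ξ⁻¹, ξ * a5 * ξ⁻¹].getD k 1 ∉ A := by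
      intro k hk
      interval_cases k
      · exact nξ
      · exact nξ'
      · exact cj z3 n3
      · exact cj z5 n5
    exact hW.ttll hA M hSC (fun k => hδ _ (Nat.mod_lt _ (by omega))) hξ hξ'
  · -- TTFTTF
    obtain ⟨a2, z2, n2, e2⟩ := rotE hι (hm 2) c2
    obtain ⟨a5, z5, n5, e5⟩ := rotE hι (hm 5) c5
    rw [e2, e5] at hr
    have hW := mkWd (N := 4) (by omega) (u := fun k => [w 0, w 1, w 3, w 4].getD k 1)
      (δ := fun k => [ξ, ξ⁻¹ * a2 * ξ, ξ⁻¹, ξ * a5 * ξ⁻¹].getD k 1)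
      (by intro k hk; interval_cases k <;> exact mm _)
      (by intro k hk; interval_cases k <;> assumption) (by
        simp only [Dw, List.getD_cons_zero, List.getD_cons_succ, map_mul, map_inv, mul_assoc,
          one_mul] at hr ⊢
        exact hr)
    have hδ : ∀ k < 4, [ξ, ξ⁻¹ * a2 * ξ, ξ⁻¹, ξ * a5 * ξ⁻¹].getD k 1 ∉ A := by
      intro k hk
      interval_cases k
      · exact nξ
      · exact cj' z2 n2
      · exact nξ'
      · exact cj z5 n5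
    obtain ⟨b, hb, α1, h1, α2, h2, α3, h3, α4, h4, q1, q2⟩ :=
      hW.exc hA M hSC (fun k => hδ _ (Nat.mod_lt _ (by omega))) hξ hξ'
    exact exc_alg (hgeo := hgeo) nξ z2 n2 z5 n5 h1 h2 h3 h4 q1 q2
  · -- TTTTTF
    obtain ⟨a5, z5, n5, e5⟩ := rotE hι (hm 5) c5
    rw [e5] at hr
    have := cnt_word (N := 5) hA M hSC (by omega) (by omega) (u := w)
      (δ := fun k => [ξ, ξ⁻¹, ξ, ξ⁻¹, ξ * a5 * ξ⁻¹].getD k 1)
      (fun k _ => mm k) (by intro k hk; interval_cases k <;> assumption) (by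
        simp only [Dw, List.getD_cons_zero, List.getD_cons_succ, map_mul, map_inv, mul_assoc,
          one_mul] at hr ⊢
        exact hr)
      (by
        intro k hk
        interval_cases k
        · exact nξ
        · exact nξ'
        · exact nξ
        · exact nξ'
        · exact cj z5 n5) (by omega) (fun k => [0.9, 0.9, 0.9, 0.9, 2.1].getD k 0) (by
        intro k hk
        interval_cases k
        · exact Or.inl ⟨hξ, rfl⟩
        · exact Or.inl ⟨hξ', rfl⟩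
        · exact Or.inl ⟨hξ, rfl⟩
        · exact Or.inl ⟨hξ', rfl⟩
        · exact Or.inr rfl)
    simp only [Finset.sum_range_succ, Finset.range_zero, Finset.sum_empty,
      List.getD_cons_zero, List.getD_cons_succ] at this
    norm_num at this
  · -- TTTTTT
    have hab : ∀ k < 6, ¬ IsABA A B ([ξ, ξ⁻¹, ξ, ξ⁻¹, ξ, ξ⁻¹].getD k 1) := by
      intro k hk
      interval_cases k
      · exact hξ
      · exact hξ'
      · exact hξ
      · exact hξ'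
      · exact hξ
      · exact hξ'
    have := cnt_word (N := 6) hA M hSC (by omega) (by omega) (u := w)
      (δ := fun k => [ξ, ξ⁻¹, ξ, ξ⁻¹, ξ, ξ⁻¹].getD k 1)
      (fun k _ => mm k) (by intro k hk; interval_cases k <;> assumption) (by
        simp only [Dw, List.getD_cons_zero, List.getD_cons_succ, map_inv, mul_assoc,
          one_mul] at hr ⊢
        exact hr)
      (fun k hk => not_A_of (hab k hk)) (fun _ => hab) (fun _ => 0.9)
      (fun k hk => Or.inl ⟨hab k hk, rfl⟩)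
    simp only [Finset.sum_range_succ, Finset.range_zero, Finset.sum_empty] at this
    norm_num at this

/-- no relation -/
theorem no_R6 (hA : ∀ x ∈ A, ∀ y ∈ A, x * y = y * x) (M : Mods)
    (hSC : (XX hg hgeo hι).SC) {ξ : G} (hξ : ¬ IsABA A B ξ) {w : ℕ → PP A B g} (h : R6 ξ w) :
    False := by
  classical
  have hp := h.1
  have p0 : w 6 = w 0 := hp 0
  have p1 : w 7 = w 1 := hp 1
  have p2 : w 8 = w 2 := hp 2
  have p3 : w 9 = w 3 := hp 3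
  have p4 : w 10 = w 4 := hp 4
  rcases canon_all (decide (∀ y, w 0 ≠ Pι A B g y)) (decide (∀ y, w 1 ≠ Pι A B g y))
    (decide (∀ y, w 2 ≠ Pι A B g y)) (decide (∀ y, w 3 ≠ Pι A B g y))
    (decide (∀ y, w 4 ≠ Pι A B g y)) (decide (∀ y, w 5 ≠ Pι A B g y)) with hc | hc | hc | hc |
    hc | hc
  · exact canon_case hA M hSC hξ h hc
  · obtain ⟨ξ', h1, h2⟩ := h.rotn hξ 1
    refine canon_case hA M hSC h1 h2 ?_
    simp only [Nat.zero_add, Nat.reduceAdd, p0]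
    exact hc
  · obtain ⟨ξ', h1, h2⟩ := h.rotn hξ 2
    refine canon_case hA M hSC h1 h2 ?_
    simp only [Nat.zero_add, Nat.reduceAdd, p0, p1]
    exact hc
  · obtain ⟨ξ', h1, h2⟩ := h.rotn hξ 3
    refine canon_case hA M hSC h1 h2 ?_
    simp only [Nat.zero_add, Nat.reduceAdd, p0, p1, p2]
    exact hc
  · obtain ⟨ξ', h1, h2⟩ := h.rotn hξ 4
    refine canon_case hA M hSC h1 h2 ?_
    simp only [Nat.zero_add, Nat.reduceAdd, p0, p1, p2, p3]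
    exact hc
  · obtain ⟨ξ', h1, h2⟩ := h.rotn hξ 5
    refine canon_case hA M hSC h1 h2 ?_
    simp only [Nat.zero_add, Nat.reduceAdd, p0, p1, p2, p3, p4]
    exact hc

/-- E6K0. -/
theorem e6k0 : E6K0Stmt := by
  intro G _ A B g hg hgeo hι hA M hSC h hh hv
  obtain ⟨v, ⟨p, hp, hp'⟩, ⟨q, hq, hq'⟩⟩ := hv
  have h1 : p ∈ PA A B g := by
    rcases hp' with h1 | h1
    · rw [plane_eq, inv_one, one_mul] at h1; exact h1
    · exact absurd h1 plane_ne_line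
  have h2 : h⁻¹ * q ∈ PA A B g := by
    rcases hq' with h1 | h1
    · rw [plane_eq] at h1; exact h1
    · exact absurd h1 plane_ne_line
  obtain ⟨ξ, hξ⟩ := vx_eq.1 (hp.symm.trans hq)
  obtain ⟨q', hq1⟩ : ∃ q', q' = (h⁻¹ * q)⁻¹ := ⟨_, rfl⟩
  have m' : q' ∈ PA A B g := by rw [hq1]; exact (PA A B g).inv_mem h2
  have hh1 : h = p * Pι A B g ξ * q' := by rw [← hξ, hq1]; group
  have hξ1 : ¬ IsABA A B ξ := by
    rintro ⟨x, hx, y, hy, z, hz, rfl⟩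
    apply hh
    refine ⟨p * Pι A B g x, (PA A B g).mul_mem h1 ((ι_PA hι).2 hx), Pι A B g y,
      (ι_PB hι).2 hy, Pι A B g z * q', (PA A B g).mul_mem ((ι_PA hι).2 hz) m', ?_⟩
    rw [hh1, map_mul, map_mul]
    group
  intro x1 hx1 y1 hy1 x2 hx2 y2 hy2 x3 hx3 y3 hy3 nx1 ny1 nx2 ny2 nx3 ny3 hrel
  have cx : ∀ x ∈ PA A B g, x ≠ 1 → p⁻¹ * x * p ∈ PA A B g ∧ p⁻¹ * x * p ≠ 1 := by
    intro x hx nx
    refine ⟨(PA A B g).mul_mem ((PA A B g).mul_mem ((PA A B g).inv_mem h1) hx) h1, ?_⟩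
    intro h3
    apply nx
    have : x = p * (p⁻¹ * x * p) * p⁻¹ := by group
    rw [this, h3]; group
  have cy : ∀ y ∈ PA A B g, y ≠ 1 → q' * y * q'⁻¹ ∈ PA A B g ∧ q' * y * q'⁻¹ ≠ 1 := by
    intro x hx nx
    refine ⟨(PA A B g).mul_mem ((PA A B g).mul_mem m' hx) ((PA A B g).inv_mem m'), ?_⟩
    intro h3
    apply nx
    have : x = q'⁻¹ * (q' * x * q'⁻¹) * q' := by group
    rw [this, h3]; group
  have hall : ∀ k < 6, ([p⁻¹ * x1 * p, q' * y1 * q'⁻¹, p⁻¹ * x2 * p, q' * y2 * q'⁻¹,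
      p⁻¹ * x3 * p, q' * y3 * q'⁻¹].getD k 1) ∈ PA A B g ∧ ([p⁻¹ * x1 * p, q' * y1 * q'⁻¹,
      p⁻¹ * x2 * p, q' * y2 * q'⁻¹, p⁻¹ * x3 * p, q' * y3 * q'⁻¹].getD k 1) ≠ 1 := by
    intro k hk
    interval_cases k
    · exact cx x1 hx1 nx1
    · exact cy y1 hy1 ny1
    · exact cx x2 hx2 nx2
    · exact cy y2 hy2 ny2
    · exact cx x3 hx3 nx3
    · exact cy y3 hy3 ny3
  refine no_R6 hA M hSC hξ1 (w := fun k => [p⁻¹ * x1 * p, q' * y1 * q'⁻¹, p⁻¹ * x2 * p,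
    q' * y2 * q'⁻¹, p⁻¹ * x3 * p, q' * y3 * q'⁻¹].getD (k % 6) 1)
    ⟨fun k => by simp, fun k => hall _ (Nat.mod_lt _ (by omega)), ?_⟩
  have e0 : 0 % 6 = 0 := rfl
  have e1 : 1 % 6 = 1 := rfl
  have e2 : 2 % 6 = 2 := rfl
  have e3 : 3 % 6 = 3 := rfl
  have e4 : 4 % 6 = 4 := rfl
  have e5 : 5 % 6 = 5 := rfl
  simp only [e0, e1, e2, e3, e4, e5, List.getD_cons_zero, List.getD_cons_succ]
  rw [hh1] at hrel
  have h5 : p⁻¹ * (x1 * (p * Pι A B g ξ * q' * y1 * (p * Pι A B g ξ * q')⁻¹) * x2 *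
    (p * Pι A B g ξ * q' * y2 * (p * Pι A B g ξ * q')⁻¹) * x3 *
    (p * Pι A B g ξ * q' * y3 * (p * Pι A B g ξ * q')⁻¹)) * p = 1 := by
    rw [hrel]; group
  rw [← h5]
  group

end Pool.Agent.ABA.B.H88
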