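import Pool.Agent.Helper88_ABA.Crn

/-! # The count for polygons of planes (MP_d857f1_al, part B, E6K0) -/

namespace Pool.Agent.ABA.B.H88

open Knd Pool.Agent.ABA Pool.Agent.ABA.B Pool.Agent.ABA.B.TG Pool.Agent.ABA.B.H17
  Pool.Agent.ABA.B.H89

variable {G : Type} [Group G] {A B : Subgroup G} {g : G}
variable {hg : ¬ IsABA A B g} {hgeo : Geo A B} {hι : Function.Injective (Pι A B g)}

section corner

variable {w : List (XE A B g)} {a : ℕ → XE A B g} {W : ℕ → List (XE A B g)}
  {I : List (List (XE A B g))}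

/-- the corner inequality, with the cases of equality -/
theorem corner_cnt (h : BdA (XX hg hgeo hι) w a W I)
    (hw : w ≠ []) (hL : LM hg hgeo hι w) (i : ℕ) {c c' : Car A B g} {x : XV A B g}
    (hlo : Loose c c' x) (h1 : car (a i) = c) (h2 : car (a (i + 1)) = c')
    (hx : xsrc (a (i + 1)) = x) :
    (F W (i + 1) + 1.2 * (1 - oL (kndE (a i)) - oF (kndE (a (i + 1)))) ≤ 2.1 ∧
      (2.1 ≤ F W (i + 1) + 1.2 * (1 - oL (kndE (a i)) - oF (kndE (a (i + 1)))) →
        oL (kndE (a i)) = 0 ∧ oF (kndE (a (i + 1))) = 0 ∧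
        ∃ f, W (i + 1) = [xinv (a i), f, a (i + 1)] ∧
        ((kndE (a i) = up ∧ kndE f = cp ∧ kndE (a (i + 1)) = um) ∨
         (kndE (a i) = vm ∧ kndE f = cm ∧ kndE (a (i + 1)) = vp)))) ∧
    (Tight c c' x →
      F W (i + 1) + 1.2 * (1 - oL (kndE (a i)) - oF (kndE (a (i + 1)))) ≤ 0.9 ∧
      (0.9 ≤ F W (i + 1) + 1.2 * (1 - oL (kndE (a i)) - oF (kndE (a (i + 1)))) →
        oL (kndE (a i)) = 1 ∧ oF (kndE (a (i + 1))) = 1 ∧
        W (i + 1) = [xinv (a i), a (i + 1)])) := by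
  obtain ⟨⟨q, hq⟩, ⟨q', hq'⟩⟩ := hlo.plane
  have hF := F_le h (i + 1)
  have hL0 : ∀ k, 0 ≤ oL k := fun k => by unfold oL; split_ifs <;> norm_num
  have hF0 : ∀ k, 0 ≤ oF k := fun k => by unfold oF; split_ifs <;> norm_num
  rcases corner h hw hL i (h1.trans hq) (h2.trans hq') with ⟨k1, k2⟩ | ⟨f, k1, k2, k3⟩ | k1
  · have e1 : oL (kndE (a i)) = 1 := by unfold oL; rw [if_pos k1]
    have e2 : oF (kndE (a (i + 1))) = 1 := by unfold oF; rw [if_pos k2]
    rw [e1, e2]
    refine ⟨⟨by linarith, fun h3 => by exfalso; linarith⟩, fun _ => ⟨by linarith, fun h3 => ?_⟩⟩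
    refine ⟨rfl, rfl, ?_⟩
    rcases F_PP h hw hL i (h1.trans hq) (h2.trans hq') with ⟨h4, -, -⟩ | h4
    · exact h4
    · exfalso; linarith
  · have e1 : oL (kndE (a i)) = 0 := by
      unfold oL
      rw [if_neg]
      rcases k3 with ⟨k3, -, -⟩ | ⟨k3, -, -⟩ <;> rw [k3] <;> decide
    have e2 : oF (kndE (a (i + 1))) = 0 := by
      unfold oF
      rw [if_neg]
      rcases k3 with ⟨-, -, k3⟩ | ⟨-, -, k3⟩ <;> rw [k3] <;> decide
    rw [e1, e2]
    refine ⟨⟨by rw [k2]; norm_num, fun _ => ⟨rfl, rfl, f, k1, k3⟩⟩, fun ht => ?_⟩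
    exfalso
    have hch := h.chain (i + 1)
    rw [k1, List.isChain_cons_cons, List.isChain_cons_cons] at hch
    refine ht.no_PP hch.1 hch.2.1 (by rw [car_inv]; exact h1) h2 ?_ ?_
    · rw [cor_src hg hgeo hι hch.1, cor_src hg hgeo hι hch.2.1]
      exact hx
    · rw [kndE_xinv]
      rcases k3 with ⟨k3, k4, k5⟩ | ⟨k3, k4, k5⟩
      · rw [k3]; exact Or.inl ⟨rfl, k4, k5⟩
      · rw [k3]; exact Or.inr ⟨rfl, k4, k5⟩
  · have a1 := hL0 (kndE (a i))
    have a2 := hF0 (kndE (a (i + 1)))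
    exact ⟨⟨by linarith, fun h3 => by exfalso; linarith⟩,
      fun _ => ⟨by linarith, fun h3 => by exfalso; linarith⟩⟩

end corner

variable {N : ℕ} {c : ℕ → Car A B g} {v : ℕ → XV A B g} {s : ℕ → List (XE A B g)}
  {a : ℕ → XE A B g} {W : ℕ → List (XE A B g)} {I : List (List (XE A B g))}

namespace Gn

theorem w_ne (h : Gn hg hgeo hι N c v s a W I) (hN : 0 < N) : fl s 0 N ≠ [] := by
  rw [fl_at s hN]
  simp [h.ne 0 hN]

theorem off_next (h : Gn hg hgeo hι N c v s a W I) (k : ℕ) (hk : k < N) :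
    off s (k + 1) = off s k + ((s k).length - 1) + 1 := by
  have := List.length_pos_iff.2 (h.ne k hk)
  rw [off_succ]; omega

theorem wrap (h : Gn hg hgeo hι N c v s a W I) : a (off s N) = a (off s 0) := by
  have h1 := h.bd.per 0
  rw [Nat.zero_add] at h1
  rw [off, off, fl_self]
  exact h1

/-- the first letter of the next side -/
theorem car_first (h : Gn hg hgeo hι N c v s a W I) (hN : 0 < N) (hcN : c N = c 0) (k : ℕ)
    (hk : k ≤ N) : car (a (off s k)) = c k := by
  rcases hk.lt_or_eq with hk | rfl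
  · exact (h.seg k hk).1 _ le_rfl (by omega)
  · rw [h.wrap, hcN]
    exact (h.seg 0 hN).1 _ le_rfl (by omega)

theorem car_last (h : Gn hg hgeo hι N c v s a W I) (k : ℕ) (hk : k < N) :
    car (a (off s k + ((s k).length - 1))) = c k := (h.seg k hk).1 _ (by omega) le_rfl

theorem a_off (h : Gn hg hgeo hι N c v s a W I) (k : ℕ) (hk : k < N) :
    ∃ t, s k = a (off s k) :: t := by
  obtain ⟨e, t, he⟩ := List.exists_cons_of_ne_nil (h.ne k hk)
  refine ⟨t, ?_⟩
  have h1 : off s k < (fl s 0 N).length := by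
    rw [fl_at s hk, he, off]
    simp only [List.length_append, List.length_cons]
    omega
  have h2 := h.bd.get (off s k) h1
  have h3 : (fl s 0 N)[off s k]? = some e := by
    rw [fl_at s hk, he, List.append_assoc, off, List.getElem?_append_right le_rfl]
    simp
  rw [List.getElem?_eq_getElem h1, Option.some.injEq] at h3
  rw [h2, h3, he]

theorem src_first (h : Gn hg hgeo hι N c v s a W I) (hN : 0 < N) (hvN : v N = v 0) (k : ℕ)
    (hk : k ≤ N) : xsrc (a (off s k)) = v k := by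
  have key : ∀ k < N, xsrc (a (off s k)) = v k := by
    intro k hk
    obtain ⟨t, ht⟩ := h.a_off k hk
    have h1 := (h.sd k hk).1
    rw [ht] at h1
    exact h1.1
  rcases hk.lt_or_eq with hk | rfl
  · exact key k hk
  · rw [h.wrap, hvN]
    exact key 0 hN

/-- THE COUNT -/
theorem count (hA : ∀ x ∈ A, ∀ y ∈ A, x * y = y * x) (h : Gn hg hgeo hι N c v s a W I)
    (hN : 0 < N) (hcN : c N = c 0) (hvN : v N = v 0)
    (hlo : ∀ k < N, Loose (c k) (c (k + 1)) (v (k + 1))) (ρ : ℕ → ℝ)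
    (hρ : ∀ k < N, (Tight (c k) (c (k + 1)) (v (k + 1)) ∧ ρ k = 0.9) ∨ ρ k = 2.1) :
    6 ≤ ∑ k ∈ Finset.range N, ρ k ∧ (∑ k ∈ Finset.range N, ρ k = 6 → ∀ k < N,
      1.2 * (1 - oF (kndE (a (off s k))) - oL (kndE (a (off s k + ((s k).length - 1))))) ≤
        - (((s k).length - 1 : ℕ) : ℝ) / 10 ∧
      (ρ k = 2.1 → oL (kndE (a (off s k + ((s k).length - 1)))) = 0 ∧
        oF (kndE (a (off s (k + 1)))) = 0 ∧
        ∃ f, W (off s (k + 1)) = [xinv (a (off s k + ((s k).length - 1))), f, a (off s (k + 1))] ∧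
        ((kndE (a (off s k + ((s k).length - 1))) = up ∧ kndE f = cp ∧
          kndE (a (off s (k + 1))) = um) ∨
         (kndE (a (off s k + ((s k).length - 1))) = vm ∧ kndE f = cm ∧
          kndE (a (off s (k + 1))) = vp))) ∧
      (ρ k = 0.9 → oL (kndE (a (off s k + ((s k).length - 1)))) = 1 ∧
        oF (kndE (a (off s (k + 1)))) = 1 ∧
        W (off s (k + 1)) = [xinv (a (off s k + ((s k).length - 1))), a (off s (k + 1))])) := by
  have hw := h.w_ne hN
  have htot := h.tot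
  -- sides
  have hS : ∀ k < N, ∑ i ∈ Finset.Ico (off s k) (off s k + ((s k).length - 1)), F W (i + 1) ≤
      1.2 * (1 - oF (kndE (a (off s k))) - oL (kndE (a (off s k + ((s k).length - 1))))) ∧
      ∑ i ∈ Finset.Ico (off s k) (off s k + ((s k).length - 1)), F W (i + 1) ≤
        - (((s k).length - 1 : ℕ) : ℝ) / 10 := by
    intro k hk
    obtain ⟨⟨q, hq⟩, -⟩ := (hlo k hk).plane
    have hs := h.seg k hk
    rw [hq] at hs
    exact ⟨side_cnt hA h.bd hw h.lm hs, sum_side hA h.bd hw h.lm (h.seg k hk)⟩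
  -- corners
  have hC := fun k (hk : k < N) => corner_cnt h.bd hw h.lm (off s k + ((s k).length - 1))
    (hlo k hk) (h.car_last k hk)
    (by rw [← h.off_next k hk]; exact h.car_first hN hcN (k + 1) hk)
    (by rw [← h.off_next k hk]; exact h.src_first hN hvN (k + 1) hk)
  have hC1 : ∀ k < N, F W (off s (k + 1)) + 1.2 * (1 -
      oL (kndE (a (off s k + ((s k).length - 1)))) - oF (kndE (a (off s (k + 1))))) ≤ ρ k := by
    intro k hk
    have h1 := hC k hk
    rw [← h.off_next k hk] at h1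
    rcases hρ k hk with ⟨h2, h3⟩ | h3
    · rw [h3]; exact (h1.2 h2).1
    · rw [h3]; exact h1.1.1
  have hU : ∀ k ∈ Finset.range N,
      (∑ i ∈ Finset.Ico (off s k) (off s k + ((s k).length - 1)), F W (i + 1) +
        F W (off s (k + 1))) ≤
      ρ k + 1.2 * (oF (kndE (a (off s (k + 1)))) - oF (kndE (a (off s k)))) := by
    intro k hk
    have hk' := Finset.mem_range.1 hk
    have h1 := (hS k hk').1
    have h2 := hC1 k hk'
    linarith
  have htel : ∑ k ∈ Finset.range N, (ρ k + 1.2 * (oF (kndE (a (off s (k + 1)))) -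
      oF (kndE (a (off s k))))) = ∑ k ∈ Finset.range N, ρ k := by
    rw [Finset.sum_add_distrib, ← Finset.mul_sum,
      Finset.sum_range_sub (fun k => oF (kndE (a (off s k)))), h.wrap, sub_self, mul_zero, add_zero]
  have hle := Finset.sum_le_sum hU
  rw [htel] at hle
  refine ⟨le_trans htot hle, ?_⟩
  intro heq k hk
  have h3 : ∑ k ∈ Finset.range N, (∑ i ∈ Finset.Ico (off s k) (off s k + ((s k).length - 1)),
      F W (i + 1) + F W (off s (k + 1))) = ∑ k ∈ Finset.range N,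
      (ρ k + 1.2 * (oF (kndE (a (off s (k + 1)))) - oF (kndE (a (off s k))))) := by
    rw [htel, heq]
    rw [heq] at hle
    exact le_antisymm hle htot
  have h4 := (Finset.sum_eq_sum_iff_of_le hU).1 h3 k (Finset.mem_range.2 hk)
  have h5 := hS k hk
  have h6 := hC1 k hk
  have h7 := hC k hk
  rw [← h.off_next k hk] at h7
  refine ⟨by linarith, ?_, ?_⟩
  · intro hr
    exact h7.1.2 (by linarith)
  · intro hr
    rcases hρ k hk with ⟨h8, -⟩ | h8
    · exact (h7.2 h8).2 (by linarith)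
    · exfalso; rw [hr] at h8; norm_num at h8

end Gn

/-- THE EXCEPTIONAL 4-GON: tight corners at `v 1`, `v 3`, loose corners at `v 2`, `v 4 = v 0` -/
theorem exc4 (hA : ∀ x ∈ A, ∀ y ∈ A, x * y = y * x) (h : Gn hg hgeo hι 4 c v s a W I)
    (hcN : c 4 = c 0) (hvN : v 4 = v 0)
    (hlo : ∀ k < 4, Loose (c k) (c (k + 1)) (v (k + 1)))
    (t0 : Tight (c 0) (c 1) (v 1)) (t2 : Tight (c 2) (c 3) (v 3)) :
    ∃ e0 e1 e2 e3 f, SideP hg hgeo hι (c 0) (v 0) (v 1) [e0] ∧
      SideP hg hgeo hι (c 1) (v 1) (v 2) [e1] ∧ SideP hg hgeo hι (c 2) (v 2) (v 3) [e2] ∧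
      SideP hg hgeo hι (c 3) (v 3) (v 4) [e3] ∧ XT e1 (xinv e0) (xinv f) ∧ XT e2 f (xinv e3) ∧
      ((kndE e1 = up ∧ kndE f = cp ∧ kndE e2 = um) ∨
        (kndE e1 = vm ∧ kndE f = cm ∧ kndE e2 = vp)) := by
  obtain ⟨-, hcnt⟩ := h.count hA (by omega) hcN hvN hlo
    (fun k => if k = 0 ∨ k = 2 then 0.9 else 2.1) (by
      intro k hk
      by_cases h0 : k = 0
      · subst h0; left; exact ⟨t0, by simp⟩
      · by_cases h2 : k = 2
        · subst h2; left; exact ⟨t2, by simp⟩
        · right; simp [h0, h2])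
  have hsum : ∑ k ∈ Finset.range 4, (if k = 0 ∨ k = 2 then (0.9 : ℝ) else 2.1) = 6 := by
    rw [Finset.sum_range_succ, Finset.sum_range_succ, Finset.sum_range_succ, Finset.sum_range_one]
    norm_num
  have hk := hcnt hsum
  obtain ⟨p0, -, q0⟩ := hk 0 (by omega)
  obtain ⟨p1, q1, -⟩ := hk 1 (by omega)
  obtain ⟨p2, -, q2⟩ := hk 2 (by omega)
  obtain ⟨p3, q3, -⟩ := hk 3 (by omega)
  obtain ⟨r0, r1, r2⟩ := q0 (by norm_num)
  obtain ⟨r3, r4, f, r5, r6⟩ := q1 (by norm_num)
  obtain ⟨r7, r8, r9⟩ := q2 (by norm_num)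
  obtain ⟨x3, x4, f', x5, x6⟩ := q3 (by norm_num)
  have hwr := h.wrap
  rw [hwr] at x4
  have len : ∀ k < 4, (s k).length = 1 := by
    intro k hk'
    have h1 := List.length_pos_iff.2 (h.ne k hk')
    have h2 : (((s k).length - 1 : ℕ) : ℝ) ≤ 0 := by
      interval_cases k
      · rw [x4, r0] at p0; linarith
      · simp only [Nat.zero_add] at r1
        rw [r1, r3] at p1; linarith
      · rw [r4, r7] at p2; linarith
      · rw [r8, x3] at p3; linarith
    have h3 : (s k).length - 1 = 0 := by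
      have : (s k).length - 1 ≤ 0 := by exact_mod_cast h2
      omega
    omega
  have sk : ∀ k < 4, s k = [a (off s k)] := by
    intro k hk'
    obtain ⟨t, ht⟩ := h.a_off k hk'
    have h1 := len k hk'
    rw [ht] at h1
    simp only [List.length_cons, Nat.add_eq_right, List.length_eq_zero_iff] at h1
    rw [ht, h1]
  have o0 : off s 0 = 0 := by rw [off, fl_self]; rfl
  have o1 : off s 1 = 1 := by
    have := off_succ s 0
    rw [o0, len 0 (by omega)] at this; exact this
  have o2 : off s 2 = 2 := by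
    have := off_succ s 1
    rw [o1, len 1 (by omega)] at this; exact this
  have o3 : off s 3 = 3 := by
    have := off_succ s 2
    rw [o2, len 2 (by omega)] at this; exact this
  have s0 := sk 0 (by omega)
  have s1 := sk 1 (by omega)
  have s2 := sk 2 (by omega)
  have s3 := sk 3 (by omega)
  rw [o0] at s0
  rw [o1] at s1
  rw [o2] at s2
  rw [o3] at s3
  have l0 := len 0 (by omega)
  have l1 := len 1 (by omega)
  have l2 := len 2 (by omega)
  simp only [Nat.zero_add, Nat.reduceAdd, o0, o1, o2, o3, l0, l1, l2, Nat.sub_self, Nat.add_zero]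
    at r2 r5 r6 r9
  have d0 := h.sd 0 (by omega)
  have d1 := h.sd 1 (by omega)
  have d2 := h.sd 2 (by omega)
  have d3 := h.sd 3 (by omega)
  rw [s0] at d0
  rw [s1] at d1
  rw [s2] at d2
  rw [s3] at d3
  have hw := h.w_ne (by omega)
  obtain ⟨f1, f2, l, r, hT, hW1, hW2, -⟩ := edgA h.bd hw h.lm 1
  obtain ⟨f1', f2', l', r', hT', hW1', hW2', -⟩ := edgA h.bd hw h.lm 2
  simp only [Nat.reduceAdd] at hW2 hW2'
  have e1 : f1 = xinv (a 0) := by
    rw [r2] at hW1
    rcases l with _ | ⟨y, l⟩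
    · simp only [List.nil_append, List.cons.injEq] at hW1
      exact hW1.1.symm
    · have := congrArg List.length hW1
      simp at this
  have e2 : f2 = xinv f := by
    rw [r5] at hW2
    simp only [List.cons.injEq, true_and] at hW2
    rw [hW2.1]
    exact (xinv_xinv hg hgeo hι f2).symm
  have e3 : f1' = f := by
    rw [r5] at hW1'
    rcases l' with _ | ⟨y, _ | ⟨z, l'⟩⟩
    · simp at hW1'
    · simp only [List.cons_append, List.nil_append, List.cons.injEq] at hW1'
      exact hW1'.2.1.symm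
    · have := congrArg List.length hW1'
      simp at this
  have e4 : f2' = xinv (a 3) := by
    rw [r9] at hW2'
    simp only [List.cons.injEq, true_and] at hW2'
    rw [hW2'.1]
    exact (xinv_xinv hg hgeo hι f2').symm
  rw [e1, e2] at hT
  rw [e3, e4] at hT'
  exact ⟨a 0, a 1, a 2, a 3, f, d0, d1, d2, d3, hT, hT', r6⟩

end Pool.Agent.ABA.B.H88
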