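import Pool.Agent.Helper88_ABA.GonN

/-! # Corners between planes and sides in planes: the count (MP_d857f1_al, part B, E6K0) -/

namespace Pool.Agent.ABA.B.H88

open Knd Pool.Agent.ABA Pool.Agent.ABA.B Pool.Agent.ABA.B.TG Pool.Agent.ABA.B.H17
  Pool.Agent.ABA.B.H89

/-! ## kinds -/

theorem ow20_snoc : ∀ (l : List Knd) (a b : Knd), ow20 (l ++ [a, b]) = ow20 (l ++ [a]) + wt a b
  | [], a, b => by simp [ow20]
  | [x], a, b => by simp [ow20]
  | x :: y :: l, a, b => by
    have := ow20_snoc (y :: l) a b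
    simp only [List.cons_append] at this ⊢
    simp only [ow20]
    omega

theorem fC_lip' (a b : Knd) (h : adj a b = true) : fC b - fC a ≤ wt a b := by
  have h1 := fC_lip b a (by rw [adj_symm]; exact h)
  rw [wt_symm] at h1
  simp only at h1
  linarith

/-- walks between two planes which start and end with a T-corner -/
theorem kinds (K : List Knd) (hK : K.IsChain (fun a b => adj a b = true)) {e f f' e' : Knd}
    {r l : List Knd} (h1 : K = e :: f :: r) (h2 : K = l ++ [f', e']) (ht : tee e f = true)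
    (ht' : tee e' f' = true) (he : e.isH = true) (he' : e'.isH = true) :
    ((e = up ∨ e = vm) ∧ (e' = up ∨ e' = vm)) ∨
    (K = [e, f, e'] ∧ ((e = um ∧ f = cp ∧ e' = um) ∨ (e = vp ∧ f = cm ∧ e' = vp))) ∨
    82 ≤ ow20 K := by
  have t1 : (e = up ∧ f = vm) ∨ (e = vm ∧ f = up) ∨ (e = um ∧ f = cp) ∨ (e = vp ∧ f = cm) := by
    rcases tee_cases ht with h | h | h | h | h | h
    · exact Or.inl h
    · exact Or.inr (Or.inl h)
    · exact Or.inr (Or.inr (Or.inl h))
    · rw [h.1] at he; exact absurd he (by decide)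
    · rw [h.1] at he; exact absurd he (by decide)
    · exact Or.inr (Or.inr (Or.inr h))
  have t2 : (e' = up ∧ f' = vm) ∨ (e' = vm ∧ f' = up) ∨ (e' = um ∧ f' = cp) ∨
      (e' = vp ∧ f' = cm) := by
    rcases tee_cases ht' with h | h | h | h | h | h
    · exact Or.inl h
    · exact Or.inr (Or.inl h)
    · exact Or.inr (Or.inr (Or.inl h))
    · rw [h.1] at he'; exact absurd he' (by decide)
    · rw [h.1] at he'; exact absurd he' (by decide)
    · exact Or.inr (Or.inr (Or.inr h))
  -- the word has at least three letters unless it is an O-O corner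
  rcases l with _ | ⟨x, l⟩
  · have h3 : e = f' ∧ f = e' := by
      rw [h1] at h2
      simp only [List.nil_append, List.cons.injEq] at h2
      exact ⟨h2.1, h2.2.1⟩
    obtain ⟨rfl, rfl⟩ := h3
    left
    rcases t1 with ⟨a, b⟩ | ⟨a, b⟩ | ⟨a, b⟩ | ⟨a, b⟩
    · exact ⟨Or.inl a, Or.inr b⟩
    · exact ⟨Or.inr a, Or.inl b⟩
    · rw [b] at he'; exact absurd he' (by decide)
    · rw [b] at he'; exact absurd he' (by decide)
  · have hx : x = e ∧ f :: r = l ++ [f', e'] := by
      rw [h1] at h2
      simp only [List.cons_append, List.cons.injEq] at h2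
      exact ⟨h2.1.symm, h2.2⟩
    obtain ⟨rfl, h3⟩ := hx
    have hw : ow20 K = wt x f + ow20 (l ++ [f']) + wt f' e' := by
      rw [h1]
      have : ow20 (x :: f :: r) = wt x f + ow20 (f :: r) := rfl
      rw [this, h3, ow20_snoc]
      ring
    have hc1 : (l ++ [f']).IsChain (fun a b => adj a b = true) := by
      have h4 := hK
      rw [h1, List.isChain_cons_cons] at h4
      have h5 := h4.2
      rw [h3] at h5
      have h6 : l ++ [f', e'] = (l ++ [f']) ++ [e'] := by simp
      rw [h6, List.isChain_append] at h5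
      exact h5.1
    have hh : (l ++ [f']).head? = some f := by
      rcases l with _ | ⟨y, l⟩
      · have : f = f' := by
          simp only [List.nil_append, List.cons.injEq] at h3
          exact h3.1
        rw [this]; rfl
      · have : f = y := by
          simp only [List.cons_append, List.cons.injEq] at h3
          exact h3.1
        rw [this]; rfl
    have hl : (l ++ [f']).getLast? = some f' := by simp
    have p1 := ow20_pot (fun k => - fC k) fC_lip _ _ _ hc1 hh hl
    have p2 := ow20_pot fC fC_lip' _ _ _ hc1 hh hl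
    have hxf : 18 ≤ wt x f := wt_ge _ _
    have hfe : 18 ≤ wt f' e' := wt_ge _ _
    by_cases c1 : x = up ∨ x = vm
    · by_cases c2 : e' = up ∨ e' = vm
      · exact Or.inl ⟨c1, c2⟩
      · right; right
        have f1 : fC f = 43 := by
          rcases t1 with ⟨a, b⟩ | ⟨a, b⟩ | ⟨a, b⟩ | ⟨a, b⟩
          · rw [b]; rfl
          · rw [b]; rfl
          · rw [a] at c1; exact absurd c1 (by decide)
          · rw [a] at c1; exact absurd c1 (by decide)
        have f2 : fC f' = 0 ∧ wt f' e' = 21 := by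
          rcases t2 with ⟨a, b⟩ | ⟨a, b⟩ | ⟨a, b⟩ | ⟨a, b⟩
          · exact absurd (Or.inl a) c2
          · exact absurd (Or.inr a) c2
          · rw [a, b]; decide
          · rw [a, b]; decide
        rw [hw]
        omega
    · by_cases c2 : e' = up ∨ e' = vm
      · right; right
        have f1 : fC f = 0 ∧ wt x f = 21 := by
          rcases t1 with ⟨a, b⟩ | ⟨a, b⟩ | ⟨a, b⟩ | ⟨a, b⟩
          · exact absurd (Or.inl a) c1
          · exact absurd (Or.inr a) c1
          · rw [a, b]; decide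
          · rw [a, b]; decide
        have f2 : fC f' = 43 := by
          rcases t2 with ⟨a, b⟩ | ⟨a, b⟩ | ⟨a, b⟩ | ⟨a, b⟩
          · rw [b]; rfl
          · rw [b]; rfl
          · rw [a] at c2; exact absurd c2 (by decide)
          · rw [a] at c2; exact absurd c2 (by decide)
        rw [hw]
        omega
      · right
        have f1 : wt x f = 21 ∧ ((x = um ∧ f = cp) ∨ (x = vp ∧ f = cm)) := by
          rcases t1 with ⟨a, b⟩ | ⟨a, b⟩ | ⟨a, b⟩ | ⟨a, b⟩
          · exact absurd (Or.inl a) c1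
          · exact absurd (Or.inr a) c1
          · rw [a, b]; decide
          · rw [a, b]; decide
        have f2 : wt f' e' = 21 ∧ ((e' = um ∧ f' = cp) ∨ (e' = vp ∧ f' = cm)) := by
          rcases t2 with ⟨a, b⟩ | ⟨a, b⟩ | ⟨a, b⟩ | ⟨a, b⟩
          · exact absurd (Or.inl a) c2
          · exact absurd (Or.inr a) c2
          · rw [a, b]; decide
          · rw [a, b]; decide
        rcases l with _ | ⟨y, l⟩
        · left
          have hf : f = f' ∧ r = [e'] := by
            simp only [List.nil_append, List.cons.injEq] at h3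
            exact h3
          obtain ⟨rfl, rfl⟩ := hf
          refine ⟨h1, ?_⟩
          rcases f1.2 with ⟨a, b⟩ | ⟨a, b⟩
          · rcases f2.2 with ⟨a', b'⟩ | ⟨a', b'⟩
            · exact Or.inl ⟨a, b, a'⟩
            · rw [b] at b'; exact absurd b' (by decide)
          · rcases f2.2 with ⟨a', b'⟩ | ⟨a', b'⟩
            · rw [b] at b'; exact absurd b' (by decide)
            · exact Or.inr ⟨a, b, a'⟩
        · right
          have hy : f = y := by
            simp only [List.cons_append, List.cons.injEq] at h3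
            exact h3.1
          subst hy
          rw [List.cons_append] at hc1
          obtain ⟨z, t, hz⟩ : ∃ z t, l ++ [f'] = z :: t := by
            rcases l with _ | ⟨z, l⟩
            · exact ⟨f', [], rfl⟩
            · exact ⟨z, l ++ [f'], rfl⟩
          have hl' : (z :: t).getLast? = some f' := by rw [← hz]; simp
          have hc2 := hc1
          rw [hz, List.isChain_cons_cons] at hc2
          have p3 := ow20_pot (fun k => - fC k) fC_lip _ _ _ hc2.2 rfl hl'
          have hz2 : fC z = 21 ∧ wt f z = 21 := by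
            have h5 := hc2.1
            rcases f1.2 with ⟨a, b⟩ | ⟨a, b⟩
            · rw [b] at h5 ⊢
              revert h5
              cases z <;> decide
            · rw [b] at h5 ⊢
              revert h5
              cases z <;> decide
          have f3 : fC f' = 0 := by
            rcases f2.2 with ⟨a, b⟩ | ⟨a, b⟩
            · rw [b]; rfl
            · rw [b]; rfl
          have h6 : ow20 (f :: l ++ [f']) = wt f z + ow20 (z :: t) := by
            rw [List.cons_append, hz]; rfl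
          rw [hw, h6]
          omega

variable {G : Type} [Group G] {A B : Subgroup G} {g : G}
variable {hg : ¬ IsABA A B g} {hgeo : Geo A B} {hι : Function.Injective (Pι A B g)}
variable {w : List (XE A B g)} {a : ℕ → XE A B g} {W : ℕ → List (XE A B g)}
  {I : List (List (XE A B g))}

/-- corner between two planes -/
theorem corner (h : BdA (XX hg hgeo hι) w a W I)
    (hw : w ≠ []) (hL : LM hg hgeo hι w) (i : ℕ) {q q' : PP A B g} (h1 : car (a i) = plane q)
    (h2 : car (a (i + 1)) = plane q') :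
    ((kndE (a i) = um ∨ kndE (a i) = vp) ∧ (kndE (a (i + 1)) = up ∨ kndE (a (i + 1)) = vm)) ∨
    (∃ f, W (i + 1) = [xinv (a i), f, a (i + 1)] ∧ F W (i + 1) = 0.9 ∧
      ((kndE (a i) = up ∧ kndE f = cp ∧ kndE (a (i + 1)) = um) ∨
       (kndE (a i) = vm ∧ kndE f = cm ∧ kndE (a (i + 1)) = vp))) ∨
    F W (i + 1) ≤ -1.1 := by
  obtain ⟨⟨f, r, hW, hf⟩, ⟨f', l, hW', hf'⟩⟩ := walk_struct h hw hL i
  obtain ⟨m', p', he'⟩ := plane_letter h2
  have h3 : car (xinv (a i)) = plane q := by rw [car_inv]; exact h1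
  obtain ⟨m, p, he⟩ := plane_letter h3
  have hk : kndE (xinv (a i)) = kinv (kndE (a i)) := kndE_xinv _
  have hch := h.chain (i + 1)
  have htA : tee (kndE (xinv (a i))) (kndE f) = true := by
    have hc := hch
    rw [hW, List.isChain_cons_cons] at hc
    exact cor_tee hc.1 ⟨m, he⟩ (hf _ _ he)
  have htB : tee (kndE (a (i + 1))) (kndE f') = true := by
    have hc := hch
    rw [hW', List.isChain_append] at hc
    have h4 := hc.2.1
    rw [List.isChain_cons_cons] at h4
    exact cor_tee (cor_symm' h4.1) ⟨m', he'⟩ (hf' _ _ he')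
  have hH : (kndE (xinv (a i))).isH = true := by rw [he]; exact kndD_isH m
  have hH' : (kndE (a (i + 1))).isH = true := by rw [he']; exact kndD_isH m'
  have hinv : ∀ k k' : Knd, kinv k = k' → k = kinv k' := by
    intro k k'; cases k <;> rintro rfl <;> rfl
  rcases kinds ((W (i + 1)).map kndE) (chain_adj hch) (e := kndE (xinv (a i))) (f := kndE f)
    (f' := kndE f') (e' := kndE (a (i + 1))) (r := r.map kndE) (l := l.map kndE)
    (by rw [hW]; rfl) (by rw [hW']; simp) htA htB hH hH' with ⟨k1, k2⟩ | ⟨k1, k2⟩ | k1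
  · left
    refine ⟨?_, k2⟩
    rw [hk] at k1
    rcases k1 with k1 | k1
    · left; rw [hinv _ _ k1]; rfl
    · right; rw [hinv _ _ k1]; rfl
  · right; left
    have hlen := congrArg List.length k1
    rw [List.length_map, hW] at hlen
    simp only [List.length_cons, List.length_nil] at hlen
    have hr1 : r.length = 1 := by omega
    obtain ⟨x, rfl⟩ := List.length_eq_one_iff.1 hr1
    have hx : x = a (i + 1) := by
      have h4 : (W (i + 1)).getLast? = some x := by rw [hW]; rfl
      have h5 : (W (i + 1)).getLast? = some (a (i + 1)) := by rw [hW']; simp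
      rw [h4] at h5
      exact Option.some.inj h5
    subst hx
    refine ⟨f, hW, ?_, ?_⟩
    · unfold F
      rw [ow_eq20, k1]
      rcases k2 with ⟨k2, k3, k4⟩ | ⟨k2, k3, k4⟩
      · rw [k2, k3, k4]; norm_num [ow20, wt]
      · rw [k2, k3, k4]; norm_num [ow20, wt]
    · rw [hk] at k2
      rcases k2 with ⟨k2, k3, k4⟩ | ⟨k2, k3, k4⟩
      · left; exact ⟨by rw [hinv _ _ k2]; rfl, k3, k4⟩
      · right; exact ⟨by rw [hinv _ _ k2]; rfl, k3, k4⟩
  · right; right
    unfold F
    rw [ow_eq20]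
    have h4 : ((82 : ℕ) : ℝ) ≤ (ow20 ((W (i + 1)).map kndE) : ℝ) := by exact_mod_cast k1
    push_cast at h4
    linarith

/-- O-end at the beginning of a side -/
noncomputable def oF (k : Knd) : ℝ := if k = up ∨ k = vm then 1 else 0

/-- O-end at the end of a side -/
noncomputable def oL (k : Knd) : ℝ := if k = um ∨ k = vp then 1 else 0

theorem side_cnt (hA : ∀ x ∈ A, ∀ y ∈ A, x * y = y * x)
    (h : BdA (XX hg hgeo hι) w a W I)
    (hw : w ≠ []) (hL : LM hg hgeo hι w) {q : PP A B g} {p n : ℕ} (hs : Seg (plane q) a p n) :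
    ∑ i ∈ Finset.Ico p (p + n), F W (i + 1) ≤
      1.2 * (1 - oF (kndE (a p)) - oL (kndE (a (p + n)))) := by
  have h0 := sum_side hA h hw hL hs
  have hn : (0 : ℝ) ≤ (n : ℝ) := Nat.cast_nonneg n
  unfold oF oL
  by_cases c1 : kndE (a p) = up ∨ kndE (a p) = vm
  · by_cases c2 : kndE (a (p + n)) = um ∨ kndE (a (p + n)) = vp
    · rw [if_pos c1, if_pos c2]
      have hk : 22 ≤ cd (kndE (a p)) (kndE (a (p + n))) := by
        rcases c1 with c1 | c1 <;> rcases c2 with c2 | c2 <;> rw [c1, c2] <;> decide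
      have := side_turn hA h hw hL hs hk
      linarith
    · rw [if_pos c1, if_neg c2]
      linarith
  · by_cases c2 : kndE (a (p + n)) = um ∨ kndE (a (p + n)) = vp
    · rw [if_neg c1, if_pos c2]
      linarith
    · rw [if_neg c1, if_neg c2]
      linarith

/-! ## tight and loose corners -/

/-- the planes `c`, `c'` meet at `x` and differ there by an element outside `A B A` -/
def Tight (c c' : Car A B g) (x : XV A B g) : Prop :=
  ∃ p : PP A B g, ∃ h : G, x = vx p ∧ c = plane p ∧ c' = plane (p * Pι A B g h) ∧ ¬ IsABA A B h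

/-- the planes `c`, `c'` meet at `x` and differ there by an element outside `A` -/
def Loose (c c' : Car A B g) (x : XV A B g) : Prop :=
  ∃ p : PP A B g, ∃ h : G, x = vx p ∧ c = plane p ∧ c' = plane (p * Pι A B g h) ∧ h ∉ A

theorem not_A_of {h : G} (hh : ¬ IsABA A B h) : h ∉ A := fun hA =>
  hh ⟨h, hA, 1, B.one_mem, 1, A.one_mem, by simp⟩

theorem Tight.loose {c c' : Car A B g} {x : XV A B g} (h : Tight c c' x) : Loose c c' x := by
  obtain ⟨p, h, h1, h2, h3, h4⟩ := h
  exact ⟨p, h, h1, h2, h3, not_A_of h4⟩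

theorem Loose.ne (hι : Function.Injective (Pι A B g)) {c c' : Car A B g} {x : XV A B g}
    (h : Loose c c' x) : c ≠ c' := by
  obtain ⟨p, h, h1, rfl, rfl, h4⟩ := h
  intro he
  have h5 := plane_eq.1 he
  rw [inv_mul_cancel_left] at h5
  exact h4 ((ι_PA hι).1 h5)

theorem Loose.on {c c' : Car A B g} {x : XV A B g} (h : Loose c c' x) : On c x ∧ On c' x := by
  obtain ⟨p, h, rfl, rfl, rfl, h4⟩ := h
  exact ⟨⟨p, rfl, Or.inl rfl⟩, ⟨p * Pι A B g h, vx_eq.2 ⟨h, rfl⟩, Or.inl rfl⟩⟩

theorem Loose.plane {c c' : Car A B g} {x : XV A B g} (h : Loose c c' x) :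
    (∃ q, c = plane q) ∧ ∃ q, c' = plane q := by
  obtain ⟨p, h, rfl, rfl, rfl, h4⟩ := h
  exact ⟨⟨_, rfl⟩, ⟨_, rfl⟩⟩

/-- two different planes with a common vertex -/
theorem loose_of (hι : Function.Injective (Pι A B g)) {q q' : PP A B g} {x : XV A B g}
    (h1 : On (B := B) (plane q) x) (h2 : On (B := B) (plane q') x)
    (hne : (plane q : Car A B g) ≠ plane q') : Loose (plane q : Car A B g) (plane q') x := by
  obtain ⟨p, hp, h3⟩ := h1
  obtain ⟨p', hp', h4⟩ := h2
  have h5 : (plane q : Car A B g) = plane p := by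
    rcases h3 with h3 | h3
    · exact h3
    · exact absurd h3 plane_ne_line
  have h6 : (plane q' : Car A B g) = plane p' := by
    rcases h4 with h4 | h4
    · exact h4
    · exact absurd h4 plane_ne_line
  have h7 : (vx p : XV A B g) = vx p' := by rw [← hp, ← hp']
  obtain ⟨h, rfl⟩ := vx_eq.1 h7
  refine ⟨p, h, hp, h5, h6, ?_⟩
  intro hA
  apply hne
  rw [h5, h6, plane_eq, inv_mul_cancel_left]
  exact (ι_PA hι).2 hA

/-- P-corners at the vertex `q G` -/
theorem cor_um_cp {q : PP A B g} {e e' : XE A B g}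
    (h : (XX hg hgeo hι).Cor e e') (hs : xsrc e = vx q) (hk : kndE e = um) (hk' : kndE e' = cp) :
    ∃ y : G, e = eA .U' (q * Pι A B g y) ∧ e' = eC true (q * Pι A B g y) := by
  rcases (cor_iff e e').1 h with ⟨m, p, rfl, rfl⟩ | ⟨m, p, rfl, rfl⟩ | ⟨p, rfl, rfl⟩ |
    ⟨p, rfl, rfl⟩ | ⟨p, rfl, rfl⟩ | ⟨p, rfl, rfl⟩ | ⟨p, rfl, rfl⟩ | ⟨p, rfl, rfl⟩
  · exfalso; revert hk hk'; cases m <;> simp [kndD, Dr.nxt]
  · exfalso; revert hk hk'; cases m <;> simp [kndD, Dr.nxt]
  · exfalso; revert hk; simp [kndD]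
  · exfalso; revert hk; simp [kndD]
  · exfalso; revert hk; simp [kndC]
  · rw [xsrc_eA] at hs
    obtain ⟨y, rfl⟩ := vx_eq.1 hs.symm
    exact ⟨y, rfl, rfl⟩
  · exfalso; revert hk; simp [kndD]
  · exfalso; revert hk; simp [kndC]

/-- Q-corners at the vertex `q G` -/
theorem cor_vp_cm {q : PP A B g} {e e' : XE A B g}
    (h : (XX hg hgeo hι).Cor e e') (hs : xsrc e = vx q) (hk : kndE e = vp) (hk' : kndE e' = cm) :
    ∃ y : G, e = eA .V (q * Pι A B g y) ∧ e' = eC false (q * Pι A B g y) := by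
  rcases (cor_iff e e').1 h with ⟨m, p, rfl, rfl⟩ | ⟨m, p, rfl, rfl⟩ | ⟨p, rfl, rfl⟩ |
    ⟨p, rfl, rfl⟩ | ⟨p, rfl, rfl⟩ | ⟨p, rfl, rfl⟩ | ⟨p, rfl, rfl⟩ | ⟨p, rfl, rfl⟩
  · exfalso; revert hk hk'; cases m <;> simp [kndD, Dr.nxt]
  · exfalso; revert hk hk'; cases m <;> simp [kndD, Dr.nxt]
  · exfalso; revert hk; simp [kndD]
  · exfalso; revert hk; simp [kndD]
  · exfalso; revert hk; simp [kndC]
  · exfalso; revert hk; simp [kndD]
  · rw [xsrc_eA] at hs
    obtain ⟨y, rfl⟩ := vx_eq.1 hs.symm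
    exact ⟨y, rfl, rfl⟩
  · exfalso; revert hk; simp [kndC]

/-- no P- or Q-corner at a tight corner -/
theorem Tight.no_PP {c c' : Car A B g} {x : XV A B g} (ht : Tight c c' x) {e f e' : XE A B g}
    (h1 : (XX hg hgeo hι).Cor e f) (h2 : (XX hg hgeo hι).Cor f e') (hc : car e = c)
    (hc' : car e' = c') (hs : xsrc e = x)
    (hk : (kndE e = um ∧ kndE f = cp ∧ kndE e' = um) ∨
      (kndE e = vp ∧ kndE f = cm ∧ kndE e' = vp)) : False := by
  obtain ⟨p, h, rfl, rfl, rfl, hh⟩ := ht
  have hs' : xsrc e' = vx p := by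
    rw [← hs, cor_src hg hgeo hι h1, cor_src hg hgeo hι h2]
  rcases hk with ⟨k1, k2, k3⟩ | ⟨k1, k2, k3⟩
  · obtain ⟨y, rfl, rfl⟩ := cor_um_cp h1 hs k1 k2
    obtain ⟨z, rfl, hz⟩ := cor_um_cp (cor_symm' h2) hs' k3 k2
    obtain ⟨b, hb, hb2⟩ := (eC_eq.1 hz).2
    have hb3 : z = y * b := by
      apply hι
      rw [map_mul]
      exact mul_left_cancel (a := p) (by rw [hb2, mul_assoc])
    rw [car_eA, plane_eq] at hc hc'
    have m1 : y⁻¹ ∈ A := (ι_PA hι).1 (by rw [map_inv]; convert hc using 1; group)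
    have m2 : z⁻¹ * h ∈ A := (ι_PA hι).1 (by rw [map_mul, map_inv]; convert hc' using 1; group)
    apply hh
    refine ⟨y, by simpa using A.inv_mem m1, b, hb, z⁻¹ * h, m2, ?_⟩
    rw [hb3]; group
  · obtain ⟨y, rfl, rfl⟩ := cor_vp_cm h1 hs k1 k2
    obtain ⟨z, rfl, hz⟩ := cor_vp_cm (cor_symm' h2) hs' k3 k2
    obtain ⟨b, hb, hb2⟩ := (eC_eq.1 hz).2
    have hb3 : z = y * b := by
      apply hι
      rw [map_mul]
      exact mul_left_cancel (a := p) (by rw [hb2, mul_assoc])
    rw [car_eA, plane_eq] at hc hc'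
    have m1 : y⁻¹ ∈ A := (ι_PA hι).1 (by rw [map_inv]; convert hc using 1; group)
    have m2 : z⁻¹ * h ∈ A := (ι_PA hι).1 (by rw [map_mul, map_inv]; convert hc' using 1; group)
    apply hh
    refine ⟨y, by simpa using A.inv_mem m1, b, hb, z⁻¹ * h, m2, ?_⟩
    rw [hb3]; group

end Pool.Agent.ABA.B.H88
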