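import Pool.Agent.Helper88_ABA.Poly
import Pool.Agent.Helper70_ABA.Words

/-! # The exceptional 4-gon and the group theory (MP_d857f1_al, part B, E6K0) -/

namespace Pool.Agent.ABA.B.H88

open Knd Pool.Agent.ABA Pool.Agent.ABA.B Pool.Agent.ABA.B.TG Pool.Agent.ABA.B.H17
  Pool.Agent.ABA.B.H89

variable {G : Type} [Group G] {A B : Subgroup G} {g : G}
variable {hg : ¬ IsABA A B g} {hgeo : Geo A B} {hι : Function.Injective (Pι A B g)}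

theorem xt_cp {e e' f : XE A B g} (h : XT e e' f) (hk : kndE f = cp) :
    ∃ p, e = eA .V' (p * Pι A B g g) ∧ e' = eA .U p ∧ f = eC true (p * Pu A B g) := by
  rcases h.elim' with ⟨m, p, rfl, rfl, rfl⟩ | ⟨m, p, rfl, rfl, rfl⟩ | ⟨p, rfl, rfl, rfl⟩ |
    ⟨p, rfl, rfl, rfl⟩ | ⟨p, rfl, rfl, rfl⟩ | ⟨p, rfl, rfl, rfl⟩ | ⟨p, rfl, rfl, rfl⟩ |
    ⟨p, rfl, rfl, rfl⟩
  · exfalso; revert hk; cases m <;> simp [kndD, Dr.nxt]
  · exfalso; revert hk; cases m <;> simp [kndD, Dr.nxt, Dr.inv]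
  · exact ⟨p, rfl, rfl, rfl⟩
  · exfalso; revert hk; simp [kndC]
  · exfalso; revert hk; simp [kndD]
  · exfalso; revert hk; simp [kndD]
  · exfalso; revert hk; simp [kndD]
  · exfalso; revert hk; simp [kndD]

theorem xt_cm {e e' f : XE A B g} (h : XT e e' f) (hk : kndE f = cm) :
    ∃ p, e = eA .U p ∧ e' = eA .V' (p * Pι A B g g) ∧
      f = eC false (p * Pu A B g * Pc A B g) := by
  rcases h.elim' with ⟨m, p, rfl, rfl, rfl⟩ | ⟨m, p, rfl, rfl, rfl⟩ | ⟨p, rfl, rfl, rfl⟩ |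
    ⟨p, rfl, rfl, rfl⟩ | ⟨p, rfl, rfl, rfl⟩ | ⟨p, rfl, rfl, rfl⟩ | ⟨p, rfl, rfl, rfl⟩ |
    ⟨p, rfl, rfl, rfl⟩
  · exfalso; revert hk; cases m <;> simp [kndD, Dr.nxt]
  · exfalso; revert hk; cases m <;> simp [kndD, Dr.nxt, Dr.inv]
  · exfalso; revert hk; simp [kndC]
  · exact ⟨p, rfl, rfl, rfl⟩
  · exfalso; revert hk; simp [kndD]
  · exfalso; revert hk; simp [kndD]
  · exfalso; revert hk; simp [kndD]
  · exfalso; revert hk; simp [kndD]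

theorem xt2_cp {e e' f : XE A B g} (h : XT e e' f) (hk : kndE e' = cp) :
    ∃ p, e = eA .U' p ∧ e' = eC true p ∧ f = eA .V (p * Pc A B g) := by
  rcases h.elim' with ⟨m, p, rfl, rfl, rfl⟩ | ⟨m, p, rfl, rfl, rfl⟩ | ⟨p, rfl, rfl, rfl⟩ |
    ⟨p, rfl, rfl, rfl⟩ | ⟨p, rfl, rfl, rfl⟩ | ⟨p, rfl, rfl, rfl⟩ | ⟨p, rfl, rfl, rfl⟩ |
    ⟨p, rfl, rfl, rfl⟩
  · exfalso; revert hk; cases m <;> simp [kndD]
  · exfalso; revert hk; cases m <;> simp [kndD, Dr.nxt]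
  · exfalso; revert hk; simp [kndD]
  · exfalso; revert hk; simp [kndD]
  · exfalso; revert hk; simp [kndD]
  · exact ⟨p, rfl, rfl, rfl⟩
  · exfalso; revert hk; simp [kndC]
  · exfalso; revert hk; simp [kndD]

theorem xt2_cm {e e' f : XE A B g} (h : XT e e' f) (hk : kndE e' = cm) :
    ∃ p, e = eA .V p ∧ e' = eC false p ∧ f = eA .U' (p * (Pc A B g)⁻¹) := by
  rcases h.elim' with ⟨m, p, rfl, rfl, rfl⟩ | ⟨m, p, rfl, rfl, rfl⟩ | ⟨p, rfl, rfl, rfl⟩ |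
    ⟨p, rfl, rfl, rfl⟩ | ⟨p, rfl, rfl, rfl⟩ | ⟨p, rfl, rfl, rfl⟩ | ⟨p, rfl, rfl, rfl⟩ |
    ⟨p, rfl, rfl, rfl⟩
  · exfalso; revert hk; cases m <;> simp [kndD]
  · exfalso; revert hk; cases m <;> simp [kndD, Dr.nxt]
  · exfalso; revert hk; simp [kndD]
  · exfalso; revert hk; simp [kndD]
  · exfalso; revert hk; simp [kndD]
  · exfalso; revert hk; simp [kndC]
  · exact ⟨p, rfl, rfl, rfl⟩
  · exfalso; revert hk; simp [kndD]

/-- the letter of a plane at a vertex -/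
theorem at_plane (hι : Function.Injective (Pι A B g)) {p E : PP A B g}
    (hs : (vx p : XV A B g) = vx E) (hc : (plane p : Car A B g) = plane E) :
    ∃ α ∈ A, p = E * Pι A B g α := by
  obtain ⟨k, hk⟩ := vx_eq.1 hs.symm
  refine ⟨k, ?_, hk⟩
  rw [hk, plane_eq] at hc
  have h1 : Pι A B g k⁻¹ ∈ PA A B g := by
    rw [map_inv]
    convert hc using 1
    group
  simpa using A.inv_mem ((ι_PA hι).1 h1)

theorem plane_ι (hι : Function.Injective (Pι A B g)) {E : PP A B g} {x y : G}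
    (hc : (plane (E * Pι A B g x) : Car A B g) = plane (E * Pι A B g y)) : x⁻¹ * y ∈ A := by
  rw [plane_eq] at hc
  apply (ι_PA hι).1
  rw [map_mul, map_inv]
  convert hc using 1
  group

/-- the exceptional word -/
theorem Wd6.exc {w : ℕ → PP A B g} {γ : ℕ → G}
    (hA : ∀ x ∈ A, ∀ y ∈ A, x * y = y * x) (M : Mods) (hSC : (XX hg hgeo hι).SC)
    (h : Wd6 4 w γ) (hγ : ∀ k, γ k ∉ A) (t0 : ¬ IsABA A B (γ 0)) (t2 : ¬ IsABA A B (γ 2)) :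
    ∃ b ∈ B, ∃ α1 ∈ A, ∃ α2 ∈ A, ∃ α3 ∈ A, ∃ α4 ∈ A,
      γ 1 = α1 * b * α2 ∧ γ 3 = α3 * b⁻¹ * α4 := by
  obtain ⟨s, a, W, I, hG⟩ := (h.pg hγ).gon hA M hSC (by omega) (by omega) (fun h6 => by omega)
  have hD4 : Dw w γ 4 = Dw w γ 0 := h.perD 0
  obtain ⟨e0, e1, e2, e3, f, d0, d1, d2, d3, x1, x2, hk⟩ := exc4 hA hG (by simp only [hD4])
    (by simp only [hD4]) (fun k _ => h.loose k (hγ k)) (h.tight 0 t0) (h.tight 2 t2)
  -- carriers and sources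
  have hv2 : (vx (Dw w γ 2) : XV A B g) = vx (Dw w γ 1 * w 1) := (vx_eq.2 ⟨γ 1, rfl⟩).symm
  have hc1 := h.plane_eq' 1
  have hc2 : Dw w γ 2 = Dw w γ 1 * w 1 * Pι A B g (γ 1) := rfl
  have hc3 := h.plane_eq' 3
  have hE3 : Dw w γ 3 * w 3 = 1 * Pι A B g (γ 3)⁻¹ := by
    have h1 : Dw w γ 3 * w 3 * Pι A B g (γ 3) = 1 := hD4
    rw [map_inv, one_mul]
    exact mul_eq_one_iff_eq_inv.1 h1
  rw [hE3] at hc3
  have s0 : xsrc e0 = vx (1 : PP A B g) := d0.1.1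
  have c0 : car e0 = plane (1 : PP A B g) := d0.2 e0 (by simp)
  have c1 : car e1 = plane (Dw w γ 1 * w 1) := by rw [← hc1]; exact d1.2 e1 (by simp)
  have s1 : xsrc (xinv e1) = vx (Dw w γ 1 * w 1) := by rw [← hv2]; exact d1.1.2
  have c2 : car e2 = plane (Dw w γ 1 * w 1 * Pι A B g (γ 1)) := by
    rw [← hc2]; exact d2.2 e2 (by simp)
  have c3 : car e3 = plane (1 * Pι A B g (γ 3)⁻¹) := by rw [← hc3]; exact d3.2 e3 (by simp)
  have hff : xinv (xinv f) = f := xinv_xinv hg hgeo hι f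
  have he0 : xinv (xinv e0) = e0 := xinv_xinv hg hgeo hι e0
  have hkf : kndE (xinv f) = kinv (kndE f) := kndE_xinv f
  -- end of the proof
  have fin : ∀ (b : G), b ∈ B → ∀ P Q : PP A B g, (vx P : XV A B g) = vx (1 : PP A B g) →
      (plane P : Car A B g) = plane 1 → (plane (P * Pι A B g b) : Car A B g) =
        plane (1 * Pι A B g (γ 3)⁻¹) → (vx Q : XV A B g) = vx (Dw w γ 1 * w 1) →
      (plane Q : Car A B g) = plane (Dw w γ 1 * w 1) →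
      (plane (Q * Pι A B g b) : Car A B g) = plane (Dw w γ 1 * w 1 * Pι A B g (γ 1)) →
      ∃ b ∈ B, ∃ α1 ∈ A, ∃ α2 ∈ A, ∃ α3 ∈ A, ∃ α4 ∈ A,
        γ 1 = α1 * b * α2 ∧ γ 3 = α3 * b⁻¹ * α4 := by
    intro b hb P Q h1 h2 h3 h4 h5 h6
    obtain ⟨α0, hα0, rfl⟩ := at_plane hι h1 h2
    obtain ⟨α1, hα1, rfl⟩ := at_plane hι h4 h5
    rw [mul_assoc, ← map_mul] at h3 h6
    have m3 := plane_ι hι h3
    have m6 := plane_ι hι h6
    refine ⟨b, hb, α1, hα1, _, m6, _, A.inv_mem m3, α0⁻¹, A.inv_mem hα0, ?_, ?_⟩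
    · group
    · group
  rcases hk with ⟨k1, k2, k3⟩ | ⟨k1, k2, k3⟩
  · -- up, cp, um
    obtain ⟨p, y1, y2, y3⟩ := xt_cm x1 (by rw [hkf, k2]; rfl)
    obtain ⟨q, y4, y5, y6⟩ := xt2_cp x2 k2
    have hf : f = eC true (p * Pu A B g) := by
      rw [← hff, y3, xinv_eC]
      simp only [trc, Bool.not_false]
      congr 1
      group
    rw [hf] at y5
    obtain ⟨-, b, hb, hq⟩ := eC_eq.1 y5
    subst hq
    refine fin b hb (p * Pu A B g * Pc A B g) (p * Pu A B g) ?_ ?_ ?_ ?_ ?_ ?_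
    · rw [← s0, ← he0, y2, xinv_eA, xsrc_eA]
      simp only [Pool.Agent.ABA.trn]
      rw [mul_assoc p (Pι A B g g), P_g2, ← mul_assoc]
    · rw [← c0, ← car_inv e0, y2, car_eA, plane_eq]
      have : (p * Pu A B g * Pc A B g)⁻¹ * (p * Pι A B g g) = Pv A B g := by rw [P_g]; group
      rw [this]
      exact trn_PA .V
    · rw [← c3, ← car_inv e3, y6, car_eA]
      congr 1
      rw [mul_assoc, mul_assoc, P_cb A B g hb]
      group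
    · rw [← s1, y1, xinv_eA, xsrc_eA]
      rfl
    · rw [← c1, y1, car_eA, plane_eq]
      have : (p * Pu A B g)⁻¹ * p = (Pu A B g)⁻¹ := by group
      rw [this]
      exact trn_PA .U'
    · rw [← c2, y4, car_eA]
  · -- vm, cm, vp
    obtain ⟨p, y1, y2, y3⟩ := xt_cp x1 (by rw [hkf, k2]; rfl)
    obtain ⟨q, y4, y5, y6⟩ := xt2_cm x2 k2
    have hf : f = eC false (p * Pu A B g * Pc A B g) := by
      rw [← hff, y3, xinv_eC]
      simp only [trc, Bool.not_true]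
    rw [hf] at y5
    obtain ⟨-, b, hb, hq⟩ := eC_eq.1 y5
    subst hq
    refine fin b hb (p * Pu A B g) (p * Pu A B g * Pc A B g) ?_ ?_ ?_ ?_ ?_ ?_
    · rw [← s0, ← he0, y2, xinv_eA, xsrc_eA]
      rfl
    · rw [← c0, ← car_inv e0, y2, car_eA, plane_eq]
      have : (p * Pu A B g)⁻¹ * p = (Pu A B g)⁻¹ := by group
      rw [this]
      exact trn_PA .U'
    · rw [← c3, ← car_inv e3, y6, car_eA]
      congr 1
      have hcb := P_cb A B g hb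
      have h1 : Pc A B g * Pι A B g b * (Pc A B g)⁻¹ = Pι A B g b := by
        rw [hcb, mul_inv_cancel_right]
      calc p * Pu A B g * Pι A B g b
          = p * Pu A B g * (Pc A B g * Pι A B g b * (Pc A B g)⁻¹) := by rw [h1]
        _ = _ := by group
    · rw [← s1, y1, xinv_eA, xsrc_eA]
      simp only [Pool.Agent.ABA.trn]
      rw [mul_assoc p (Pι A B g g), P_g2, ← mul_assoc]
    · rw [← c1, y1, car_eA, plane_eq]
      have : (p * Pu A B g * Pc A B g)⁻¹ * (p * Pι A B g g) = Pv A B g := by rw [P_g]; group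
      rw [this]
      exact trn_PA .V
    · rw [← c2, y4, car_eA]

/-- the word with two adjacent tight corners -/
theorem Wd6.ttll {w : ℕ → PP A B g} {γ : ℕ → G}
    (hA : ∀ x ∈ A, ∀ y ∈ A, x * y = y * x) (M : Mods) (hSC : (XX hg hgeo hι).SC)
    (h : Wd6 4 w γ) (hγ : ∀ k, γ k ∉ A) (t0 : ¬ IsABA A B (γ 0)) (t1 : ¬ IsABA A B (γ 1)) :
    False := by
  obtain ⟨s, a, W, I, hG⟩ := (h.pg hγ).gon hA M hSC (by omega) (by omega) (fun h6 => by omega)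
  have hD4 : Dw w γ 4 = Dw w γ 0 := h.perD 0
  obtain ⟨-, hcnt⟩ := hG.count hA (by omega) (by simp only [hD4])
    (by simp only [hD4]) (fun k _ => h.loose k (hγ k))
    (fun k => if k = 0 ∨ k = 1 then 0.9 else 2.1) (by
      intro k hk
      by_cases h0 : k = 0
      · subst h0; left; exact ⟨h.tight 0 t0, by simp⟩
      · by_cases h1 : k = 1
        · subst h1; left; exact ⟨h.tight 1 t1, by simp⟩
        · right; simp [h0, h1])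
  have hsum : ∑ k ∈ Finset.range 4, (if k = 0 ∨ k = 1 then (0.9 : ℝ) else 2.1) = 6 := by
    rw [Finset.sum_range_succ, Finset.sum_range_succ, Finset.sum_range_succ, Finset.sum_range_one]
    norm_num
  have hk := hcnt hsum
  obtain ⟨-, q2, -⟩ := hk 2 (by omega)
  obtain ⟨p3, q3, -⟩ := hk 3 (by omega)
  obtain ⟨-, r2, -⟩ := q2 (by norm_num)
  obtain ⟨r3, -, -⟩ := q3 (by norm_num)
  rw [r2, r3] at p3
  have h5 : (0 : ℝ) ≤ (((s 3).length - 1 : ℕ) : ℝ) := Nat.cast_nonneg _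
  linarith

/-! ## group theory -/

section words

variable (hgeo : Geo A B) (hA : ∀ x ∈ A, ∀ y ∈ A, x * y = y * x)
include hgeo

theorem conj_notA {ξ a : G} (hξ : ξ ∉ A) (ha : a ∈ A) (ha1 : a ≠ 1) : ξ * a * ξ⁻¹ ∉ A :=
  fun h => hξ (hgeo.aa ξ a ha h ha1)

include hA in
theorem trip_notA {ξ a a' : G} (hξ : ξ ∉ A) (ha : a ∈ A) (ha1 : a ≠ 1) (ha' : a' ∈ A)
    (ha1' : a' ≠ 1) : ξ * a * ξ⁻¹ * a' * ξ ∉ A := by
  intro h
  refine wOOOi hgeo hA hξ ha' (A.inv_mem h) ha ha1' ha1 ?_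
  group

theorem exc_alg {ξ a y b α1 α2 α3 α4 : G} (hξ : ξ ∉ A) (ha : a ∈ A) (ha1 : a ≠ 1) (hy : y ∈ A)
    (hy1 : y ≠ 1) (h1 : α1 ∈ A) (h2 : α2 ∈ A) (h3 : α3 ∈ A) (h4 : α4 ∈ A)
    (e1 : ξ⁻¹ * a * ξ = α1 * b * α2) (e2 : ξ * y * ξ⁻¹ = α3 * b⁻¹ * α4) : False := by
  have hξ' : ξ⁻¹ ∉ A := fun h => hξ (by simpa using A.inv_mem h)
  obtain ⟨c1, hc1⟩ : ∃ c1, c1 = α4⁻¹ * α1⁻¹ := ⟨_, rfl⟩
  obtain ⟨c2, hc2⟩ : ∃ c2, c2 = α2⁻¹ * α3⁻¹ := ⟨_, rfl⟩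
  have m1 : c1 ∈ A := by rw [hc1]; exact A.mul_mem (A.inv_mem h4) (A.inv_mem h1)
  have m2 : c2 ∈ A := by rw [hc2]; exact A.mul_mem (A.inv_mem h2) (A.inv_mem h3)
  have key : ξ * y * ξ⁻¹ * c1 * (ξ⁻¹ * a * ξ) * c2 = 1 := by
    rw [e1, e2, hc1, hc2]; group
  have key' : ξ * y * ξ⁻¹ * ((c1 * ξ⁻¹) * a * (c1 * ξ⁻¹)⁻¹) * (1 * (c1 * c2) * (1 : G)⁻¹) = 1 := by
    calc _ = ξ * y * ξ⁻¹ * c1 * (ξ⁻¹ * a * ξ) * c2 := by group
      _ = 1 := key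
  have hmid : ξ⁻¹ * (c1 * ξ⁻¹) ∉ A := by
    intro h
    refine wOO hgeo hξ' (A.inv_mem h) m1 ?_
    group
  by_cases hc : c1 * c2 = 1
  · rw [hc] at key'
    have h5 : ξ * y * ξ⁻¹ = (c1 * ξ⁻¹) * a⁻¹ * (c1 * ξ⁻¹)⁻¹ := by
      have h6 : ξ * y * ξ⁻¹ * ((c1 * ξ⁻¹) * a * (c1 * ξ⁻¹)⁻¹) = 1 := by
        simpa using key'
      rw [mul_eq_one_iff_eq_inv.1 h6]; group
    apply hmid
    refine hgeo.aa _ a⁻¹ (A.inv_mem ha) ?_ (by simpa using ha1)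
    have h7 : ξ⁻¹ * (c1 * ξ⁻¹) * a⁻¹ * (ξ⁻¹ * (c1 * ξ⁻¹))⁻¹ = y := by
      have : ξ⁻¹ * (c1 * ξ⁻¹) * a⁻¹ * (ξ⁻¹ * (c1 * ξ⁻¹))⁻¹ =
          ξ⁻¹ * ((c1 * ξ⁻¹) * a⁻¹ * (c1 * ξ⁻¹)⁻¹) * ξ := by group
      rw [this, ← h5]; group
    rw [h7]
    exact hy
  · refine hgeo.r3 ξ (c1 * ξ⁻¹) 1 y a (c1 * c2) hy ha (A.mul_mem m1 m2) hy1 ha1 hc hmid ?_ ?_ key'
    · intro h
      apply hξ
      have h8 : ξ = (c1 * ξ⁻¹)⁻¹ * 1 * c1 := by group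
      rw [h8]
      exact A.mul_mem h m1
    · rw [mul_one]; exact hξ'

end words

end Pool.Agent.ABA.B.H88
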