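import Pool.Agent.Helper89_ABA.Pln7

/-! # N-gons with carriers of which only neighbours meet (MP_d857f1_al, part B, E6K0) -/

namespace Pool.Agent.ABA.B.H88

open Knd Pool.Agent.ABA Pool.Agent.ABA.B Pool.Agent.ABA.B.TG Pool.Agent.ABA.B.H17
  Pool.Agent.ABA.B.H89

section lists

variable {α : Type}

/-- concatenation of the lists `s i`, `a ≤ i < b` -/
def fl (s : ℕ → List α) (a b : ℕ) : List α := ((List.range' a (b - a)).map s).flatten

theorem fl_self (s : ℕ → List α) (a : ℕ) : fl s a a = [] := by simp [fl]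

theorem fl_split (s : ℕ → List α) {a b c : ℕ} (hab : a ≤ b) (hbc : b ≤ c) :
    fl s a c = fl s a b ++ fl s b c := by
  unfold fl
  have h : List.range' a (c - a) = List.range' a (b - a) ++ List.range' b (c - b) := by
    have := List.range'_append_1 (s := a) (m := b - a) (n := c - b)
    rw [show a + (b - a) = b by omega, show b - a + (c - b) = c - a by omega] at this
    exact this.symm
  rw [h, List.map_append, List.flatten_append]

theorem fl_one (s : ℕ → List α) (a : ℕ) : fl s a (a + 1) = s a := by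
  unfold fl
  rw [show a + 1 - a = 1 by omega]
  simp [List.range']

theorem fl_succ (s : ℕ → List α) {a b : ℕ} (hab : a ≤ b) : fl s a (b + 1) = fl s a b ++ s b := by
  rw [fl_split s hab (Nat.le_succ b), fl_one]

theorem fl_congr {s s' : ℕ → List α} {a b : ℕ} (h : ∀ i, a ≤ i → i < b → s i = s' i) :
    fl s a b = fl s' a b := by
  unfold fl
  congr 1
  apply List.map_congr_left
  intro i hi
  rw [List.mem_range'_1] at hi
  exact h i hi.1 (by omega)

theorem fl_at (s : ℕ → List α) {k N : ℕ} (hk : k < N) :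
    fl s 0 N = fl s 0 k ++ s k ++ fl s (k + 1) N := by
  rw [fl_split s (Nat.zero_le k) hk.le, fl_split s (Nat.le_succ k) hk, fl_one, List.append_assoc]

theorem fl_at2 (s : ℕ → List α) {k l N : ℕ} (hk : k < l) (hl : l < N) :
    fl s 0 N = fl s 0 k ++ s k ++ fl s (k + 1) l ++ s l ++ fl s (l + 1) N := by
  rw [fl_at s hl, fl_at s hk]

theorem fl_upd (s : ℕ → List α) {k N : ℕ} (hk : k < N) (x : List α) :
    fl (Function.update s k x) 0 N = fl s 0 k ++ x ++ fl s (k + 1) N := by
  rw [fl_at _ hk, Function.update_self]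
  congr 1
  · congr 1
    apply fl_congr
    intro i _ h2
    rw [Function.update_of_ne (by omega)]
  · apply fl_congr
    intro i h1 _
    rw [Function.update_of_ne (by omega)]

theorem fl_upd2 (s : ℕ → List α) {k l N : ℕ} (hk : k < l) (hl : l < N) (x y : List α) :
    fl (Function.update (Function.update s k x) l y) 0 N =
      fl s 0 k ++ x ++ fl s (k + 1) l ++ y ++ fl s (l + 1) N := by
  rw [fl_at2 _ hk hl, Function.update_self, Function.update_of_ne (by omega : k ≠ l),
    Function.update_self]
  have e1 : fl (Function.update (Function.update s k x) l y) 0 k = fl s 0 k := by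
    apply fl_congr
    intro i _ h2
    rw [Function.update_of_ne (by omega), Function.update_of_ne (by omega)]
  have e2 : fl (Function.update (Function.update s k x) l y) (k + 1) l = fl s (k + 1) l := by
    apply fl_congr
    intro i h1 h2
    rw [Function.update_of_ne (by omega), Function.update_of_ne (by omega)]
  have e3 : fl (Function.update (Function.update s k x) l y) (l + 1) N = fl s (l + 1) N := by
    apply fl_congr
    intro i h1 h2
    rw [Function.update_of_ne (by omega), Function.update_of_ne (by omega)]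
  rw [e1, e2, e3]

/-- location of a letter -/
theorem fl_loc (s : ℕ → List α) {N : ℕ} {l r : List α} {e : α} (h : fl s 0 N = l ++ e :: r) :
    ∃ k < N, ∃ q q', s k = q ++ e :: q' ∧ l = fl s 0 k ++ q ∧ r = q' ++ fl s (k + 1) N := by
  induction N generalizing r with
  | zero => simp [fl] at h
  | succ N ih =>
    rw [fl_succ s (Nat.zero_le N)] at h
    rcases loc2 h with ⟨q, h1, h2⟩ | ⟨p, h1, h2⟩
    · obtain ⟨k, hk, q1, q2, e1, e2, e3⟩ := ih h1
      refine ⟨k, by omega, q1, q2, e1, e2, ?_⟩
      rw [h2, e3, fl_succ s (by omega : k + 1 ≤ N), List.append_assoc]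
    · exact ⟨N, by omega, p, r, h1, h2, by rw [fl_self, List.append_nil]⟩

theorem fl_len_le (s : ℕ → List α) {a b c : ℕ} (hab : a ≤ b) (hbc : b ≤ c) :
    (fl s a b).length ≤ (fl s a c).length := by
  rw [fl_split s hab hbc, List.length_append]
  omega

/-- location of a block -/
theorem fl_block (s : ℕ → List α) {N : ℕ} {p₁ p p₂ : List α} (h : fl s 0 N = p₁ ++ p ++ p₂)
    (hp : p ≠ []) :
    (∃ k < N, ∃ q q', s k = q ++ p ++ q' ∧ p₁ = fl s 0 k ++ q ∧ p₂ = q' ++ fl s (k + 1) N) ∨
    (∃ k l, k < l ∧ l < N ∧ ∃ t t' u u', s k = t ++ t' ∧ s l = u ++ u' ∧ t' ≠ [] ∧ u ≠ [] ∧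
      p = t' ++ fl s (k + 1) l ++ u ∧ p₁ = fl s 0 k ++ t ∧ p₂ = u' ++ fl s (l + 1) N) := by
  obtain ⟨e, p', hp'⟩ := List.exists_cons_of_ne_nil hp
  obtain ⟨e', p'', hp''⟩ : ∃ e' p'', p = p'' ++ [e'] :=
    ⟨_, _, (List.dropLast_append_getLast hp).symm⟩
  obtain ⟨k, hk, q, q', a1, a2, a3⟩ := fl_loc s (l := p₁) (r := p' ++ p₂) (e := e)
    (by rw [h, hp']; simp)
  obtain ⟨l, hl, t, t', b1, b2, b3⟩ := fl_loc s (l := p₁ ++ p'') (r := p₂) (e := e')
    (by rw [h, hp'']; simp)
  have hle : k ≤ l := by
    by_contra hcon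
    have hlt : l + 1 ≤ k := by omega
    have h1 := fl_len_le s (Nat.zero_le (l + 1)) hlt
    have h2 := congrArg List.length a2
    have h3 := congrArg List.length b2
    have h4 := congrArg List.length b1
    rw [fl_succ s (Nat.zero_le l)] at h1
    simp only [List.length_append, List.length_cons] at h1 h2 h3 h4
    omega
  rcases hle.eq_or_lt with hkl | hkl
  · left
    subst hkl
    refine ⟨k, hk, q, t', ?_, a2, b3⟩
    have h1 := h
    rw [fl_at s hk, a2, b3] at h1
    simp only [List.append_assoc] at h1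
    have h2 := List.append_cancel_left h1
    have h3 : s k ++ fl s (k + 1) N = (q ++ p ++ t') ++ fl s (k + 1) N := by
      rw [h2]; simp
    exact List.append_cancel_right h3
  · right
    refine ⟨k, l, hkl, hl, q, e :: q', t ++ [e'], t', a1, by rw [b1]; simp, by simp, by simp, ?_,
      a2, b3⟩
    have h1 := h
    rw [fl_at2 s hkl hl, a2, b3] at h1
    simp only [List.append_assoc] at h1
    have h2 := List.append_cancel_left h1
    rw [a1, b1] at h2
    have h3 : q ++ ((e :: q') ++ (fl s (k + 1) l ++ ((t ++ [e']) ++ (t' ++ fl s (l + 1) N)))) =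
        q ++ (p ++ (t' ++ fl s (l + 1) N)) := by
      rw [← h2]; simp
    have h4 := List.append_cancel_left h3
    have h5 : ((e :: q') ++ fl s (k + 1) l ++ (t ++ [e'])) ++ (t' ++ fl s (l + 1) N) =
        p ++ (t' ++ fl s (l + 1) N) := by
      rw [← h4]; simp
    exact (List.append_cancel_right h5).symm

end lists

variable {G : Type} [Group G] {A B : Subgroup G} {g : G}
variable {hg : ¬ IsABA A B g} {hgeo : Geo A B} {hι : Function.Injective (Pι A B g)}

/-- offset of the side `k` -/
def off (s : ℕ → List (XE A B g)) (k : ℕ) : ℕ := (fl s 0 k).length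

theorem off_succ (s : ℕ → List (XE A B g)) (k : ℕ) : off s (k + 1) = off s k + (s k).length := by
  rw [off, fl_succ s (Nat.zero_le k), List.length_append, off]

/-- the data of a minimal N-gon -/
structure Gn (hg : ¬ IsABA A B g) (hgeo : Geo A B) (hι : Function.Injective (Pι A B g))
    (N : ℕ) (c : ℕ → Car A B g) (v : ℕ → XV A B g) (s : ℕ → List (XE A B g))
    (a : ℕ → XE A B g) (W : ℕ → List (XE A B g)) (I : List (List (XE A B g))) : Prop where
  sd : ∀ k < N, SideP hg hgeo hι (c k) (v k) (v (k + 1)) (s k)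
  ne : ∀ k < N, s k ≠ []
  bd : BdA (XX hg hgeo hι) (fl s 0 N) a W I
  lm : LM hg hgeo hι (fl s 0 N)
  seg : ∀ k < N, Seg (c k) a (off s k) ((s k).length - 1)
  tot : 6 ≤ ∑ k ∈ Finset.range N,
    (∑ i ∈ Finset.Ico (off s k) (off s k + ((s k).length - 1)), F W (i + 1) + F W (off s (k + 1)))

theorem side_path {c : ℕ → Car A B g} {v : ℕ → XV A B g} {s : ℕ → List (XE A B g)} {N : ℕ}
    (hs : ∀ k < N, SideP hg hgeo hι (c k) (v k) (v (k + 1)) (s k)) (a b : ℕ) (hab : a ≤ b)
    (hb : b ≤ N) : (XX hg hgeo hι).IsP (v a) (fl s a b) (v b) := by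
  induction b, hab using Nat.le_induction with
  | base => rw [fl_self]; rfl
  | succ b hab ih =>
    rw [fl_succ s hab]
    exact isP_append.2 ⟨v b, ih (by omega), (hs b (by omega)).1⟩

theorem gonN (hA : ∀ x ∈ A, ∀ y ∈ A, x * y = y * x) (M : Mods) (hSC : (XX hg hgeo hι).SC)
    {N : ℕ} (hN : 3 ≤ N) {c : ℕ → Car A B g} {v : ℕ → XV A B g}
    (hcN : c N = c 0) (hvN : v N = v 0)
    (hon : ∀ k < N, On (c k) (v k) ∧ On (c k) (v (k + 1)))
    (hne : ∀ k < N, c k ≠ c (k + 1)) (hv : ∀ k < N, v k ≠ v (k + 1))
    (hd : ∀ k l, k + 2 ≤ l → l < N → ¬ (k = 0 ∧ l + 1 = N) →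
      ∀ r, On (c k) r → On (c l) r → False) :
    ∃ s a W I, Gn hg hgeo hι N c v s a W I := by
  classical
  have hN0 : 0 < N := by omega
  have hconn : ∀ k, ∃ t, k < N → SideP hg hgeo hι (c k) (v k) (v (k + 1)) t := by
    intro k
    by_cases hk : k < N
    · obtain ⟨t, ht⟩ := car_conn hg hgeo hι (hon k hk).1 (hon k hk).2
      exact ⟨t, fun _ => ht⟩
    · exact ⟨[], fun h => absurd h hk⟩
  choose t ht using hconn
  let Q : ℕ → Prop := fun n => ∃ s : ℕ → List (XE A B g),
    (∀ k < N, SideP hg hgeo hι (c k) (v k) (v (k + 1)) (s k)) ∧ mu hg hgeo hι (fl s 0 N) = n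
  have hQ : ∃ n, Q n := ⟨_, t, ht, rfl⟩
  obtain ⟨s, hs, hn⟩ := Nat.find_spec hQ
  have hmin : ∀ s' : ℕ → List (XE A B g),
      (∀ k < N, SideP hg hgeo hι (c k) (v k) (v (k + 1)) (s' k)) →
      mu hg hgeo hι (fl s 0 N) ≤ mu hg hgeo hι (fl s' 0 N) := by
    intro s' hs'
    rw [hn]
    exact Nat.find_min' hQ ⟨s', hs', rfl⟩
  have hP : (XX hg hgeo hι).IsP (v 0) (fl s 0 N) (v N) := side_path hs 0 N (Nat.zero_le N) le_rfl
  have hcl : (XX hg hgeo hι).Cl (fl s 0 N) := ⟨v 0, by rw [hvN] at hP; exact hP⟩
  have hsne : ∀ k < N, s k ≠ [] := by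
    intro k hk he
    have h1 := hs k hk
    rw [he] at h1
    exact hv k hk h1.nil_eq
  have hslen : ∀ k < N, 1 ≤ (s k).length := fun k hk => List.length_pos_iff.2 (hsne k hk)
  have hu : ∀ k < N, ∀ r, On (c k) r → On (c (k + 1)) r → r = v (k + 1) := by
    intro k hk r e1 e2
    have h2 : On (c (k + 1)) (v (k + 1)) := by
      by_cases hk' : k + 1 < N
      · exact (hon (k + 1) hk').1
      · have : k + 1 = N := by omega
        rw [this, hcN, hvN]
        exact (hon 0 hN0).1
    exact two_gon hA M hSC (hne k hk) e1 (hon k hk).2 e2 h2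
  have hwne : fl s 0 N ≠ [] := by
    rw [fl_at s hN0]
    simp [hsne 0 hN0]
  have hup : ∀ (k : ℕ) (x : List (XE A B g)), SideP hg hgeo hι (c k) (v k) (v (k + 1)) x →
      ∀ j < N, SideP hg hgeo hι (c j) (v j) (v (j + 1)) (Function.update s k x j) := by
    intro k x hx j hj
    by_cases hjk : j = k
    · subst hjk; rw [Function.update_self]; exact hx
    · rw [Function.update_of_ne hjk]; exact hs j hj
  have hup2 : ∀ (k l : ℕ) (x y : List (XE A B g)),
      SideP hg hgeo hι (c k) (v k) (v (k + 1)) x → SideP hg hgeo hι (c l) (v l) (v (l + 1)) y →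
      ∀ j < N, SideP hg hgeo hι (c j) (v j) (v (j + 1))
        (Function.update (Function.update s k x) l y j) := by
    intro k l x y hx hy j hj
    by_cases hjl : j = l
    · subst hjl; rw [Function.update_self]; exact hy
    · rw [Function.update_of_ne hjl]; exact hup k x hx j hj
  -- PF
  have hPF : (XX hg hgeo hι).PF (fl s 0 N) := by
    intro p₁ p p₂ hw hp hpp hclp
    by_contra hcon
    rw [not_lt] at hcon
    have hlp : 1 ≤ p.length := List.length_pos_iff.2 hp
    have hlpp : 1 ≤ (p₁ ++ p₂).length := List.length_pos_iff.2 hpp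
    have hlw : (fl s 0 N).length = p.length + (p₁ ++ p₂).length := by
      rw [hw]; simp only [List.length_append]; omega
    have win1 : ∀ s' : ℕ → List (XE A B g),
        (∀ k < N, SideP hg hgeo hι (c k) (v k) (v (k + 1)) (s' k)) →
        fl s' 0 N = p₁ ++ p₂ → False := by
      intro s' e1 e5
      have := hmin s' e1
      rw [e5] at this
      unfold mu at this
      omega
    have win2 : ∀ s' : ℕ → List (XE A B g),
        (∀ k < N, SideP hg hgeo hι (c k) (v k) (v (k + 1)) (s' k)) →
        fl s' 0 N = p → False := by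
      intro s' e1 e5
      have := hmin s' e1
      rw [e5] at this
      unfold mu at this
      omega
    rcases fl_block s hw hp with ⟨k, hk, q, q', e1, e2, e3⟩ |
      ⟨k, l, hkl, hl, t, t', u, u', e1, e2, z1, z2, e3, e4, e5⟩
    · -- inside a side
      have h1 := hs k hk
      rw [e1] at h1
      refine win1 _ (hup k _ (h1.cut hp hclp)) ?_
      rw [fl_upd s hk, e2, e3]
      simp
    · have hk : k < N := by omega
      have h1 := hs k hk
      have h2 := hs l hl
      rw [e1] at h1
      rw [e2] at h2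
      have hm : (XX hg hgeo hι).IsP (v (k + 1)) (fl s (k + 1) l) (v l) :=
        side_path hs (k + 1) l hkl (by omega)
      rw [e3] at hp hclp
      obtain ⟨r, j1, j2, j3, j4⟩ := block3 h1 hm h2 hp hclp
      have o1 : On (c k) r := j1.on (hon k hk).1
      have o2 : On (c l) r := j3.on (hon l hl).1
      by_cases hadj : l = k + 1
      · subst hadj
        have hr : r = v (k + 1) := hu k hk r o1 o2
        subst hr
        refine win1 _ (hup2 k (k + 1) _ _ j1 j4) ?_
        rw [fl_upd2 s hkl hl, e4, e5, fl_self]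
        simp
      · by_cases hex : k = 0 ∧ l + 1 = N
        · obtain ⟨rfl, hl1⟩ := hex
          have hr : r = v (l + 1) := by
            apply hu l hl r o2
            rw [hl1, hcN]
            exact o1
          have hr0 : r = v 0 := by rw [hr, hl1, hvN]
          have j2' : SideP hg hgeo hι (c 0) (v 0) (v (0 + 1)) t' := by rw [hr0] at j2; exact j2
          have j3' : SideP hg hgeo hι (c l) (v l) (v (l + 1)) u := by rw [hr] at j3; exact j3
          refine win2 _ (hup2 0 l _ _ j2' j3') ?_
          rw [fl_upd2 s hkl hl, e3, fl_self, hl1, fl_self]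
          simp
        · exact hd k l (by omega) hl hex r o1 o2
  -- local minimality
  have hLM : LM hg hgeo hι (fl s 0 N) := by
    intro l r e f1 f2 hw ht' hf1 hf2
    have hl : (l ++ f1 :: f2 :: r).length = (fl s 0 N).length + 1 := by
      rw [hw]; simp only [List.length_append, List.length_cons]; omega
    obtain ⟨k, hk, q, q', e1, e2, e3⟩ := fl_loc s hw
    have h1 := hs k hk
    rw [e1] at h1
    have h2 := hmin _ (hup k _ (h1.push ht' hf1 hf2))
    have h3 : fl (Function.update s k (q ++ f1 :: f2 :: q')) 0 N = l ++ f1 :: f2 :: r := by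
      rw [fl_upd s hk, e2, e3]
      simp
    rw [h3] at h2
    unfold mu at h2
    omega
  -- no backtracks
  have hback : ∀ k < N, ∀ t u e, s k = t ++ e :: xinv e :: u → False := by
    intro k hk t u e he
    have h1 := hs k hk
    rw [he] at h1
    have h2 := hmin _ (hup k _ h1.back)
    have h3 : fl (Function.update s k (t ++ u)) 0 N = (fl s 0 k ++ t) ++ (u ++ fl s (k + 1) N) := by
      rw [fl_upd s hk]
      simp
    have h4 : fl s 0 N = (fl s 0 k ++ t) ++ e :: xinv e :: (u ++ fl s (k + 1) N) := by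
      rw [fl_at s hk, he]
      simp
    have j2 := ar_back M hSC (u := fl s 0 k ++ t) (v := u ++ fl s (k + 1) N) (e := e)
      (by rw [← h4]; exact hcl)
    rw [h3, h4] at h2
    unfold mu at h2
    simp only [List.length_append, List.length_cons] at h2
    omega
  have hlenw : 3 ≤ (fl s 0 N).length := by
    have h0 := hslen 0 (by omega)
    have h1 := hslen 1 (by omega)
    have h2 := hslen 2 (by omega)
    rw [fl_split s (Nat.zero_le 3) hN, List.length_append]
    have : (fl s 0 3).length = (s 0).length + (s 1).length + (s 2).length := by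
      rw [fl_succ s (by omega : 0 ≤ 2), fl_succ s (by omega : 0 ≤ 1), fl_one]
      simp only [List.length_append]
    omega
  obtain ⟨a, W, I, hB⟩ := H89.bdyA M hSC (fl s 0 N) hcl hPF hwne (by
    intro e he
    have := congrArg List.length he
    simp only [List.length_cons, List.length_nil] at this
    omega)
  have hseg : ∀ k < N, Seg (c k) a (off s k) ((s k).length - 1) := by
    intro k hk
    exact seg_of hB (l := fl s 0 k) (s := s k) (r := fl s (k + 1) N) (fl_at s hk) (hs k hk).2
      (hback k hk) (hsne k hk)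
  refine ⟨s, a, W, I, ⟨hs, hsne, hB, hLM, hseg, ?_⟩⟩
  have htot := total_shift hA hB
  have hsum : ∀ K ≤ N, ∑ i ∈ Finset.range (off s K), F W (i + 1) =
      ∑ k ∈ Finset.range K, (∑ i ∈ Finset.Ico (off s k) (off s k + ((s k).length - 1)),
        F W (i + 1) + F W (off s (k + 1))) := by
    intro K hK
    induction K with
    | zero => simp [off, fl_self]
    | succ K ih =>
      rw [Finset.sum_range_succ, ← ih (by omega)]
      have h1 := hslen K (by omega)
      have h2 : off s (K + 1) = off s K + ((s K).length - 1) + 1 := by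
        rw [off_succ]; omega
      rw [Finset.range_eq_Ico, Finset.range_eq_Ico,
        ← Finset.sum_Ico_consecutive _ (Nat.zero_le (off s K)) (by omega : off s K ≤ off s (K + 1)),
        h2, Finset.sum_Ico_succ_top (by omega)]
  have h1 := hsum N le_rfl
  rw [off] at h1
  rw [← h1]
  exact htot

end Pool.Agent.ABA.B.H88
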