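import Pool.Agent.Helper88_ABA.Cnt

/-! # Closed polygons of planes (MP_d857f1_al, part B, E6K0) -/

namespace Pool.Agent.ABA.B.H88

open Knd Pool.Agent.ABA Pool.Agent.ABA.B Pool.Agent.ABA.B.TG Pool.Agent.ABA.B.H17
  Pool.Agent.ABA.B.H89

variable {G : Type} [Group G] {A B : Subgroup G} {g : G}
variable {hg : ¬ IsABA A B g} {hgeo : Geo A B} {hι : Function.Injective (Pι A B g)}

/-- periodic polygons of planes -/
structure Pg (N : ℕ) (c : ℕ → Car A B g) (v : ℕ → XV A B g) : Prop where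
  perc : ∀ k, c (k + N) = c k
  perv : ∀ k, v (k + N) = v k
  lo : ∀ k, Loose (c k) (c (k + 1)) (v (k + 1))
  nv : ∀ k, v k ≠ v (k + 1)

namespace Pg

variable {N : ℕ} {c : ℕ → Car A B g} {v : ℕ → XV A B g}

theorem on_next (h : Pg N c v) (k : ℕ) : On (c k) (v (k + 1)) := (h.lo k).on.1

theorem on_self (h : Pg N c v) (hN : 0 < N) (k : ℕ) : On (c k) (v k) := by
  obtain ⟨m, hm⟩ : ∃ m, k + N = m + 1 := ⟨k + N - 1, by omega⟩
  have h1 := (h.lo m).on.2
  rw [← hm, h.perc, h.perv] at h1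
  exact h1

/-- carriers at distance two are disjoint -/
theorem dist2 (hA : ∀ x ∈ A, ∀ y ∈ A, x * y = y * x) (M : Mods) (hSC : (XX hg hgeo hι).SC)
    (h : Pg N c v) (hN : 0 < N) (k : ℕ) (r : XV A B g) (h1 : On (c k) r)
    (h2 : On (c (k + 2)) r) : False := by
  have n01 := (h.lo k).ne hι
  have n12 : c (k + 1) ≠ c (k + 2) := (h.lo (k + 1)).ne hι
  have o00 : On (c k) (v (k + 1)) := h.on_next k
  have o10 : On (c (k + 1)) (v (k + 1)) := h.on_self hN _
  have o11 : On (c (k + 1)) (v (k + 2)) := h.on_next (k + 1)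
  have o21 : On (c (k + 2)) (v (k + 2)) := h.on_self hN _
  have d01 : v (k + 1) ≠ v (k + 2) := h.nv (k + 1)
  by_cases hc : c k = c (k + 2)
  · rw [← hc] at o21
    exact d01 (two_gon hA M hSC n01 o00 o21 o10 o11)
  · have d12 : v (k + 2) ≠ r := by
      rintro rfl
      exact d01 (two_gon hA M hSC n01 o00 h1 o10 o11)
    have d20 : r ≠ v (k + 1) := by
      rintro rfl
      exact d01 (two_gon hA M hSC n12 o10 o11 h2 o21)
    obtain ⟨s0, s1, s2, n0, n1, n2, a, W, I, hG⟩ := gon3 hA M hSC n01 n12 (Ne.symm hc) o00 o10 o11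
      o21 h2 h1 d01 d12 d20
    obtain ⟨⟨q0, e0⟩, ⟨q1, e1⟩⟩ := (h.lo k).plane
    obtain ⟨-, ⟨q2, e2⟩⟩ := (h.lo (k + 1)).plane
    rw [show k + 1 + 1 = k + 2 by rfl] at e2
    rw [e0, e1, e2] at hG
    exact no_PPP hA hG

/-- carriers at distance three are disjoint, if all corners are tight -/
theorem dist3 (hA : ∀ x ∈ A, ∀ y ∈ A, x * y = y * x) (M : Mods) (hSC : (XX hg hgeo hι).SC)
    (h : Pg N c v) (hN : 0 < N) (ht : ∀ k, Tight (c k) (c (k + 1)) (v (k + 1))) (k : ℕ)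
    (r : XV A B g) (h1 : On (c k) r) (h2 : On (c (k + 3)) r) : False := by
  have hne : c (k + 3) ≠ c k := by
    intro he
    have := h.on_next k
    rw [← he] at this
    exact h.dist2 hA M hSC hN (k + 1) _ (h.on_self hN (k + 1)) this
  let c' : ℕ → Car A B g := fun j => if j < 4 then c (k + j) else c k
  let v' : ℕ → XV A B g := fun j => if 0 < j ∧ j < 4 then v (k + j) else r
  have hlast : Loose (c (k + 3)) (c k) r := by
    obtain ⟨⟨q0, e0⟩, -⟩ := (h.lo k).plane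
    obtain ⟨⟨q3, e3⟩, -⟩ := (h.lo (k + 3)).plane
    rw [e0, e3] at hne ⊢
    rw [e0] at h1
    rw [e3] at h2
    exact loose_of hι h2 h1 hne
  have hlo : ∀ j < 4, Loose (c' j) (c' (j + 1)) (v' (j + 1)) := by
    intro j hj
    interval_cases j
    · exact h.lo k
    · exact h.lo (k + 1)
    · exact h.lo (k + 2)
    · exact hlast
  have hon : ∀ j < 4, On (c' j) (v' j) ∧ On (c' j) (v' (j + 1)) := by
    intro j hj
    interval_cases j
    · exact ⟨h1, h.on_next k⟩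
    · exact ⟨h.on_self hN _, h.on_next (k + 1)⟩
    · exact ⟨h.on_self hN _, h.on_next (k + 2)⟩
    · exact ⟨h.on_self hN _, h2⟩
  obtain ⟨s, a, W, I, hG⟩ := gonN (N := 4) hA M hSC (by omega) (c := c') (v := v') rfl rfl hon
    (fun j hj => (hlo j hj).ne hι) (by
      intro j hj
      interval_cases j
      · intro he
        have he' : r = v (k + 1) := he
        rw [he'] at h2
        exact h.dist2 hA M hSC hN (k + 1) _ (h.on_self hN (k + 1)) h2
      · exact h.nv (k + 1)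
      · exact h.nv (k + 2)
      · intro he
        have he' : v (k + 3) = r := he
        rw [← he'] at h1
        exact h.dist2 hA M hSC hN k _ h1 (h.on_next (k + 2))) (by
      intro i j hij hj hex r' h3 h4
      have hcase : (i = 0 ∧ j = 2) ∨ (i = 1 ∧ j = 3) := by omega
      rcases hcase with ⟨rfl, rfl⟩ | ⟨rfl, rfl⟩
      · exact h.dist2 hA M hSC hN k r' h3 h4
      · exact h.dist2 hA M hSC hN (k + 1) r' h3 h4)
  obtain ⟨hcnt, -⟩ := hG.count hA (by omega) rfl rfl hlo (fun j => if j = 3 then 2.1 else 0.9) (by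
    intro j hj
    interval_cases j
    · left; exact ⟨ht k, by norm_num⟩
    · left; exact ⟨ht (k + 1), by norm_num⟩
    · left; exact ⟨ht (k + 2), by norm_num⟩
    · right; norm_num)
  rw [Finset.sum_range_succ, Finset.sum_range_succ, Finset.sum_range_succ,
    Finset.sum_range_one] at hcnt
  norm_num at hcnt

/-- the minimal polygon -/
theorem gon (hA : ∀ x ∈ A, ∀ y ∈ A, x * y = y * x) (M : Mods) (hSC : (XX hg hgeo hι).SC)
    (h : Pg N c v) (hN : 4 ≤ N) (hN6 : N ≤ 6)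
    (ht : N = 6 → ∀ k, Tight (c k) (c (k + 1)) (v (k + 1))) :
    ∃ s a W I, Gn hg hgeo hι N c v s a W I := by
  have hN0 : 0 < N := by omega
  have hcN : c N = c 0 := by have := h.perc 0; rwa [Nat.zero_add] at this
  have hvN : v N = v 0 := by have := h.perv 0; rwa [Nat.zero_add] at this
  refine gonN hA M hSC (by omega) hcN hvN (fun k _ => ⟨h.on_self hN0 k, h.on_next k⟩)
    (fun k _ => (h.lo k).ne hι) (fun k _ => h.nv k) ?_
  intro k l hkl hl hex r h1 h2
  rcases Nat.lt_or_ge (l - k) 3 with h3 | h3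
  · have : l = k + 2 := by omega
    subst this
    exact h.dist2 hA M hSC hN0 k r h1 h2
  · by_cases h4 : k + N = l + 2
    · have h5 := h.perc k
      rw [h4] at h5
      rw [← h5] at h1
      exact h.dist2 hA M hSC hN0 l r h2 h1
    · have h5 : l = k + 3 ∧ N = 6 := by omega
      obtain ⟨rfl, h6⟩ := h5
      exact h.dist3 hA M hSC hN0 (ht h6) k r h1 h2

end Pg

/-! ## words -/

/-- initial products of the word `w 0 γ 0 w 1 γ 1 ...` -/
def Dw (w : ℕ → PP A B g) (γ : ℕ → G) : ℕ → PP A B g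
  | 0 => 1
  | k + 1 => Dw w γ k * w k * Pι A B g (γ k)

/-- a closed word -/
structure Wd6 (N : ℕ) (w : ℕ → PP A B g) (γ : ℕ → G) : Prop where
  perw : ∀ k, w (k + N) = w k
  perg : ∀ k, γ (k + N) = γ k
  mem : ∀ k, w k ∈ PA A B g
  trn : ∀ k x, w k ≠ Pι A B g x
  rel : Dw w γ N = 1

namespace Wd6

variable {N : ℕ} {w : ℕ → PP A B g} {γ : ℕ → G}

theorem perD (h : Wd6 N w γ) (k : ℕ) : Dw w γ (k + N) = Dw w γ k := by
  induction k with
  | zero => rw [Nat.zero_add, h.rel]; rfl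
  | succ k ih =>
    rw [Nat.add_right_comm, Dw, Dw, ih, h.perw, h.perg]

theorem plane_eq' (h : Wd6 N w γ) (k : ℕ) :
    (plane (Dw w γ k) : Car A B g) = plane (Dw w γ k * w k) := by
  rw [plane_eq, inv_mul_cancel_left]
  exact h.mem k

theorem nv (h : Wd6 N w γ) (k : ℕ) : (vx (Dw w γ k) : XV A B g) ≠ vx (Dw w γ (k + 1)) := by
  intro he
  obtain ⟨x, hx⟩ := vx_eq.1 he
  rw [Dw, mul_assoc] at hx
  have h1 := mul_left_cancel hx
  apply h.trn k (x * (γ k)⁻¹)
  rw [map_mul, ← h1, map_inv, mul_inv_cancel_right]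

theorem loose (h : Wd6 N w γ) (k : ℕ) (hγ : γ k ∉ A) :
    Loose (plane (Dw w γ k) : Car A B g) (plane (Dw w γ (k + 1))) (vx (Dw w γ (k + 1))) :=
  ⟨Dw w γ k * w k, γ k, (vx_eq.2 ⟨γ k, rfl⟩).symm, h.plane_eq' k, rfl, hγ⟩

theorem tight (h : Wd6 N w γ) (k : ℕ) (hγ : ¬ IsABA A B (γ k)) :
    Tight (plane (Dw w γ k) : Car A B g) (plane (Dw w γ (k + 1))) (vx (Dw w γ (k + 1))) :=
  ⟨Dw w γ k * w k, γ k, (vx_eq.2 ⟨γ k, rfl⟩).symm, h.plane_eq' k, rfl, hγ⟩

theorem pg (h : Wd6 N w γ) (hγ : ∀ k, γ k ∉ A) :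
    Pg N (fun k => (plane (Dw w γ k) : Car A B g)) (fun k => vx (Dw w γ k)) where
  perc k := by simp only [h.perD]
  perv k := by simp only [h.perD]
  lo k := h.loose k (hγ k)
  nv k := h.nv k

/-- THE COUNT -/
theorem count (hA : ∀ x ∈ A, ∀ y ∈ A, x * y = y * x) (M : Mods) (hSC : (XX hg hgeo hι).SC)
    (h : Wd6 N w γ) (hγ : ∀ k, γ k ∉ A) (hN : 4 ≤ N) (hN6 : N ≤ 6)
    (ht : N = 6 → ∀ k, ¬ IsABA A B (γ k)) (ρ : ℕ → ℝ)
    (hρ : ∀ k < N, (¬ IsABA A B (γ k) ∧ ρ k = 0.9) ∨ ρ k = 2.1) :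
    6 ≤ ∑ k ∈ Finset.range N, ρ k := by
  obtain ⟨s, a, W, I, hG⟩ := (h.pg hγ).gon hA M hSC hN hN6 (fun h6 k => h.tight k (ht h6 k))
  have hN0 : 0 < N := by omega
  have hcN := h.perD 0
  rw [Nat.zero_add] at hcN
  refine (hG.count hA hN0 (by simp only [hcN]) (by simp only [hcN])
    (fun k _ => h.loose k (hγ k)) ρ ?_).1
  intro k hk
  rcases hρ k hk with ⟨h1, h2⟩ | h1
  · exact Or.inl ⟨h.tight k h1, h2⟩
  · exact Or.inr h1

end Wd6

end Pool.Agent.ABA.B.H88
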